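import Pool.Agent.H87.LE.A03_Emb
import Pool.Agent.H87.LE.A16_Chain
import Pool.Agent.H87.LE.A17_Comp

/-! Preliminaries for B01 (MP_7eb226_an): algebra of test functions and of their `L²` limits. -/

open MeasureTheory Complex Set Filter Topology
open scoped ContDiff Laplacian

namespace Pool.Agent.H87.LE

theorem s1_diff {φ : ℂ → ℝ} (h : ContDiff ℝ ∞ φ) (z : ℂ) : DifferentiableAt ℝ φ z :=
  (h.differentiable (by simp)) z

theorem s1_grad_add {φ ψ : ℂ → ℝ} (h : ContDiff ℝ ∞ φ) (h' : ContDiff ℝ ∞ ψ) (z : ℂ) :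
    gradient (fun z => φ z + ψ z) z = gradient φ z + gradient ψ z := by
  unfold gradient
  rw [fderiv_fun_add (s1_diff h z) (s1_diff h' z), map_add]

theorem s1_grad_smul {φ : ℂ → ℝ} (h : ContDiff ℝ ∞ φ) (c : ℝ) (z : ℂ) :
    gradient (fun z => c * φ z) z = c • gradient φ z := by
  unfold gradient
  rw [fderiv_const_mul (s1_diff h z), map_smul]

theorem s1_grad_zero (z : ℂ) : gradient (fun _ : ℂ => (0 : ℝ)) z = 0 := by
  unfold gradient
  simp

theorem s1_grad_continuous {φ : ℂ → ℝ} (h : ContDiff ℝ ∞ φ) : Continuous (gradient φ) := by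
  unfold gradient
  exact (LinearIsometryEquiv.continuous _).comp (h.continuous_fderiv (by simp))

theorem s1_grad_off {φ : ℂ → ℝ} {z : ℂ} (hz : z ∉ tsupport φ) : gradient φ z = 0 := by
  unfold gradient
  rw [fderiv_of_notMem_tsupport ℝ hz, map_zero]

theorem s1_grad_compact {φ : ℂ → ℝ} (hc : HasCompactSupport φ) :
    HasCompactSupport (gradient φ) :=
  hc.mono' (fun _ hz => by_contra fun h' => hz (s1_grad_off h'))

theorem Tst.s1_memLp {Ω : Set ℂ} {φ : ℂ → ℝ} (h : Tst Ω φ) (p : ENNReal) : MemLp φ p volume :=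
  h.1.continuous.memLp_of_hasCompactSupport h.2.1

theorem Tst.s1_memLp_grad {Ω : Set ℂ} {φ : ℂ → ℝ} (h : Tst Ω φ) (p : ENNReal) :
    MemLp (gradient φ) p volume :=
  (s1_grad_continuous h.1).memLp_of_hasCompactSupport (s1_grad_compact h.2.1)

theorem Tst.s1_mono {Ω Ω' : Set ℂ} (h : Ω ⊆ Ω') {φ : ℂ → ℝ} (hφ : Tst Ω φ) : Tst Ω' φ :=
  ⟨hφ.1, hφ.2.1, hφ.2.2.trans h⟩

theorem Tst.s1_add {Ω : Set ℂ} {φ ψ : ℂ → ℝ} (h : Tst Ω φ) (h' : Tst Ω ψ) :
    Tst Ω (fun z => φ z + ψ z) := by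
  refine ⟨h.1.add h'.1, h.2.1.add h'.2.1, ?_⟩
  have h1 : tsupport (fun z => φ z + ψ z) ⊆ tsupport φ ∪ tsupport ψ := by
    apply closure_minimal _ ((isClosed_tsupport _).union (isClosed_tsupport _))
    intro z hz
    by_contra hcon
    rw [mem_union, not_or] at hcon
    apply hz
    show φ z + ψ z = 0
    rw [image_eq_zero_of_notMem_tsupport hcon.1, image_eq_zero_of_notMem_tsupport hcon.2, add_zero]
  exact h1.trans (union_subset h.2.2 h'.2.2)

theorem Tst.s1_smul {Ω : Set ℂ} {φ : ℂ → ℝ} (h : Tst Ω φ) (c : ℝ) : Tst Ω (fun z => c * φ z) := by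
  refine ⟨contDiff_const.mul h.1, h.2.1.mul_left, ?_⟩
  have h1 : tsupport (fun z => c * φ z) ⊆ tsupport φ := by
    apply closure_minimal _ (isClosed_tsupport _)
    intro z hz
    by_contra hcon
    apply hz
    show c * φ z = 0
    rw [image_eq_zero_of_notMem_tsupport hcon, mul_zero]
  exact h1.trans h.2.2

theorem Tst.s1_zero (Ω : Set ℂ) : Tst Ω (fun _ => (0 : ℝ)) := by
  refine ⟨contDiff_const, HasCompactSupport.zero, ?_⟩
  have : tsupport (fun _ : ℂ => (0 : ℝ)) = ∅ := by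
    rw [tsupport_eq_empty_iff]; rfl
  rw [this]; exact empty_subset _

theorem Rot.s1_add {φ ψ : ℂ → ℝ} (h : Rot φ) (h' : Rot ψ) : Rot (fun z => φ z + ψ z) :=
  fun z => by show φ (I * z) + ψ (I * z) = φ z + ψ z; rw [h z, h' z]

theorem Rot.s1_smul {φ : ℂ → ℝ} (h : Rot φ) (c : ℝ) : Rot (fun z => c * φ z) :=
  fun z => by show c * φ (I * z) = c * φ z; rw [h z]

theorem Rot.s1_zero : Rot (fun _ => (0 : ℝ)) := fun _z => rfl

theorem Lim.s1_congr {φ : ℕ → ℂ → ℝ} {v v' : ℂ → ℝ} {G G' : ℂ → ℂ} (h : Lim φ v G)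
    (hv : v =ᵐ[volume] v') (hG : G =ᵐ[volume] G') : Lim φ v' G' := by
  obtain ⟨h1, h2, h3, h4⟩ := h
  refine ⟨h1.congr hv, h2.congr hG, ?_, ?_⟩
  · refine h3.congr fun n => ?_
    apply eLpNorm_congr_ae
    filter_upwards [hv] with z hz
    rw [hz]
  · refine h4.congr fun n => ?_
    apply eLpNorm_congr_ae
    filter_upwards [hG] with z hz
    rw [hz]

theorem Lim.s1_add {φ ψ : ℕ → ℂ → ℝ} {v w : ℂ → ℝ} {G K : ℂ → ℂ} (hφ : ∀ n, ContDiff ℝ ∞ (φ n))
    (hψ : ∀ n, ContDiff ℝ ∞ (ψ n)) (h : Lim φ v G) (h' : Lim ψ w K) :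
    Lim (fun n z => φ n z + ψ n z) (fun z => v z + w z) (fun z => G z + K z) := by
  obtain ⟨h1, h2, h3, h4⟩ := h
  obtain ⟨h1', h2', h3', h4'⟩ := h'
  refine ⟨h1.add h1', h2.add h2', ?_, ?_⟩
  · have hs := h3.add h3'
    rw [add_zero] at hs
    refine tendsto_of_tendsto_of_tendsto_of_le_of_le tendsto_const_nhds hs
      (fun n => zero_le) (fun n => ?_)
    have e : (fun z => φ n z + ψ n z - (v z + w z)) =
        (fun z => φ n z - v z) + (fun z => ψ n z - w z) := by
      funext z; simp only [Pi.add_apply]; ring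
    show eLpNorm (fun z => φ n z + ψ n z - (v z + w z)) 2 volume ≤ _
    rw [e]
    exact eLpNorm_add_le ((hφ n).continuous.aestronglyMeasurable.sub h1)
      ((hψ n).continuous.aestronglyMeasurable.sub h1') (by norm_num)
  · have hs := h4.add h4'
    rw [add_zero] at hs
    refine tendsto_of_tendsto_of_tendsto_of_le_of_le tendsto_const_nhds hs
      (fun n => zero_le) (fun n => ?_)
    have e : (fun z => gradient (fun z => φ n z + ψ n z) z - (G z + K z)) =
        (fun z => gradient (φ n) z - G z) + (fun z => gradient (ψ n) z - K z) := by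
      funext z; simp only [Pi.add_apply]; rw [s1_grad_add (hφ n) (hψ n)]; abel
    show eLpNorm (fun z => gradient (fun z => φ n z + ψ n z) z - (G z + K z)) 2 volume ≤ _
    rw [e]
    exact eLpNorm_add_le ((s1_grad_continuous (hφ n)).aestronglyMeasurable.sub h2)
      ((s1_grad_continuous (hψ n)).aestronglyMeasurable.sub h2') (by norm_num)

theorem Lim.s1_smul {φ : ℕ → ℂ → ℝ} {v : ℂ → ℝ} {G : ℂ → ℂ} (hφ : ∀ n, ContDiff ℝ ∞ (φ n))
    (h : Lim φ v G) (c : ℝ) :
    Lim (fun n z => c * φ n z) (fun z => c * v z) (fun z => c • G z) := by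
  obtain ⟨h1, h2, h3, h4⟩ := h
  refine ⟨h1.const_mul c, h2.const_smul c, ?_, ?_⟩
  · have hs := ENNReal.Tendsto.const_mul (a := ‖c‖ₑ) h3 (Or.inr (by simp))
    rw [mul_zero] at hs
    refine hs.congr fun n => ?_
    have e : (fun z => c * φ n z - c * v z) = c • (fun z => φ n z - v z) := by
      funext z; simp only [Pi.smul_apply, smul_eq_mul]; ring
    rw [e, eLpNorm_const_smul]
  · have hs := ENNReal.Tendsto.const_mul (a := ‖c‖ₑ) h4 (Or.inr (by simp))
    rw [mul_zero] at hs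
    refine hs.congr fun n => ?_
    have e : (fun z => gradient (fun z => c * φ n z) z - c • G z) =
        c • (fun z => gradient (φ n) z - G z) := by
      funext z; simp only [Pi.smul_apply]; rw [s1_grad_smul (hφ n), smul_sub]
    rw [e, eLpNorm_const_smul]

/-- `L²` convergence of limits of test functions in terms of `Lp` -/
theorem Lim.s1_memLp {Ω : Set ℂ} {φ : ℕ → ℂ → ℝ} (hφ : ∀ n, Tst Ω (φ n)) {v : ℂ → ℝ} {G : ℂ → ℂ}
    (h : Lim φ v G) : MemLp v 2 volume ∧ MemLp G 2 volume := by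
  obtain ⟨h1, h2, h3, h4⟩ := h
  constructor
  · obtain ⟨n, hn⟩ := (h3.eventually (gt_mem_nhds ENNReal.zero_lt_top)).exists
    have hm : MemLp (fun z => φ n z - v z) 2 volume :=
      ⟨(hφ n).1.continuous.aestronglyMeasurable.sub h1, hn⟩
    have := ((hφ n).s1_memLp 2).sub hm
    refine this.ae_eq (Eventually.of_forall fun z => ?_)
    simp
  · obtain ⟨n, hn⟩ := (h4.eventually (gt_mem_nhds ENNReal.zero_lt_top)).exists
    have hm : MemLp (fun z => gradient (φ n) z - G z) 2 volume :=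
      ⟨(s1_grad_continuous (hφ n).1).aestronglyMeasurable.sub h2, hn⟩
    have := ((hφ n).s1_memLp_grad 2).sub hm
    refine this.ae_eq (Eventually.of_forall fun z => ?_)
    simp

/-- inner products of `L²` classes -/
theorem s1_inner_toLp {f g : ℂ → ℝ} (hf : MemLp f 2 volume) (hg : MemLp g 2 volume) :
    inner ℝ (hf.toLp f) (hg.toLp g) = ∫ z, f z * g z := by
  rw [L2.inner_def]
  apply integral_congr_ae
  filter_upwards [hf.coeFn_toLp, hg.coeFn_toLp] with z h1 h2
  rw [h1, h2]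
  simp [mul_comm]

theorem s1_inner_toLp_C {f g : ℂ → ℂ} (hf : MemLp f 2 volume) (hg : MemLp g 2 volume) :
    inner ℝ (hf.toLp f) (hg.toLp g) = ∫ z, inner ℝ (f z) (g z) := by
  rw [L2.inner_def]
  apply integral_congr_ae
  filter_upwards [hf.coeFn_toLp, hg.coeFn_toLp] with z h1 h2
  rw [h1, h2]

theorem Lim.s1_tendsto_lp {Ω : Set ℂ} {φ : ℕ → ℂ → ℝ} (hφ : ∀ n, Tst Ω (φ n)) {v : ℂ → ℝ}
    {G : ℂ → ℂ} (h : Lim φ v G) :
    Tendsto (fun n => ((hφ n).s1_memLp 2).toLp (φ n)) atTop (𝓝 ((h.s1_memLp hφ).1.toLp v)) ∧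
    Tendsto (fun n => ((hφ n).s1_memLp_grad 2).toLp (gradient (φ n))) atTop
      (𝓝 ((h.s1_memLp hφ).2.toLp G)) := by
  constructor
  · rw [Lp.tendsto_Lp_iff_tendsto_eLpNorm'']
    exact h.2.2.1
  · rw [Lp.tendsto_Lp_iff_tendsto_eLpNorm'']
    exact h.2.2.2

theorem s1_lim_of {Ω : Set ℂ} {φ : ℕ → ℂ → ℝ} (hφ : ∀ n, Tst Ω (φ n)) (v : Lp ℝ 2 (volume : Measure ℂ))
    (G : Lp ℂ 2 (volume : Measure ℂ))
    (h1 : Tendsto (fun n => ((hφ n).s1_memLp 2).toLp (φ n)) atTop (𝓝 v))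
    (h2 : Tendsto (fun n => ((hφ n).s1_memLp_grad 2).toLp (gradient (φ n))) atTop (𝓝 G)) :
    Lim φ v G := by
  refine ⟨Lp.aestronglyMeasurable v, Lp.aestronglyMeasurable G, ?_, ?_⟩
  · rw [Lp.tendsto_Lp_iff_tendsto_eLpNorm'] at h1
    refine h1.congr fun n => ?_
    apply eLpNorm_congr_ae
    filter_upwards [((hφ n).s1_memLp 2).coeFn_toLp] with z hz
    simp only [Pi.sub_apply]
    rw [hz]
  · rw [Lp.tendsto_Lp_iff_tendsto_eLpNorm'] at h2
    refine h2.congr fun n => ?_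
    apply eLpNorm_congr_ae
    filter_upwards [((hφ n).s1_memLp_grad 2).coeFn_toLp] with z hz
    simp only [Pi.sub_apply]
    rw [hz]

/-- integration by parts in the limit -/
theorem s1_ibp {Ω : Set ℂ} {φ : ℕ → ℂ → ℝ} (hφ : ∀ n, Tst Ω (φ n)) {v : ℂ → ℝ} {G : ℂ → ℂ}
    (h : Lim φ v G) {ψ : ℂ → ℝ} (hψ : ContDiff ℝ ∞ ψ) (hψc : HasCompactSupport ψ) (w : ℂ) :
    ∫ z, inner ℝ (G z) (ψ z • w) = - ∫ z, v z * fderiv ℝ ψ z w := by
  have hm := h.s1_memLp hφ
  have hψw : MemLp (fun z => ψ z • w) 2 (volume : Measure ℂ) :=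
    (hψ.continuous.smul continuous_const).memLp_of_hasCompactSupport
      (hψc.mono' (fun z hz => by
        by_contra hcon
        apply hz
        show ψ z • w = 0
        rw [image_eq_zero_of_notMem_tsupport hcon, zero_smul]))
  have hdc : Continuous (fun z => fderiv ℝ ψ z w) := emb_cont_fderiv hψ w
  have hdψ : MemLp (fun z => fderiv ℝ ψ z w) 2 (volume : Measure ℂ) :=
    hdc.memLp_of_hasCompactSupport (hψc.mono' (fun z hz => by
        by_contra hcon
        apply hz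
        show fderiv ℝ ψ z w = 0
        exact emb_fderiv_zero hcon w))
  obtain ⟨t1, t2⟩ := h.s1_tendsto_lp hφ
  have e1 : Tendsto (fun n => ∫ z, inner ℝ (gradient (φ n) z) (ψ z • w)) atTop
      (𝓝 (∫ z, inner ℝ (G z) (ψ z • w))) := by
    have := Filter.Tendsto.inner (𝕜 := ℝ) t2
      (tendsto_const_nhds (x := hψw.toLp (fun z => ψ z • w)))
    simp only [s1_inner_toLp_C] at this
    exact this
  have e2 : Tendsto (fun n => ∫ z, φ n z * fderiv ℝ ψ z w) atTop
      (𝓝 (∫ z, v z * fderiv ℝ ψ z w)) := by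
    have := Filter.Tendsto.inner (𝕜 := ℝ) t1
      (tendsto_const_nhds (x := hdψ.toLp (fun z => fderiv ℝ ψ z w)))
    simp only [s1_inner_toLp] at this
    exact this
  have e3 : ∀ n, ∫ z, inner ℝ (gradient (φ n) z) (ψ z • w) =
      - ∫ z, φ n z * fderiv ℝ ψ z w := by
    intro n
    have i1 : Integrable (fun z => fderiv ℝ (φ n) z w * ψ z) :=
      emb_int hψc ((emb_cont_fderiv (hφ n).1 w).mul hψ.continuous) (fun z hz => by
        rw [emb_zero hz, mul_zero])
    have i2 : Integrable (fun z => φ n z * fderiv ℝ ψ z w) :=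
      emb_int hψc ((hφ n).1.continuous.mul hdc) (fun z hz => by
        rw [emb_fderiv_zero hz, mul_zero])
    have i3 : Integrable (fun z => φ n z * ψ z) :=
      emb_int hψc ((hφ n).1.continuous.mul hψ.continuous) (fun z hz => by
        rw [emb_zero hz, mul_zero])
    have key := integral_mul_fderiv_eq_neg_fderiv_mul_of_integrable i1 i2 i3
      (fun z _ => s1_diff (hφ n).1 z) (fun z _ => s1_diff hψ z)
    rw [key, neg_neg]
    congr 1
    funext z
    rw [inner_smul_right, inner_gradient_left, mul_comm]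
  have e4 : Tendsto (fun n => ∫ z, inner ℝ (gradient (φ n) z) (ψ z • w)) atTop
      (𝓝 (- ∫ z, v z * fderiv ℝ ψ z w)) := by
    simp only [e3]
    exact e2.neg
  exact tendsto_nhds_unique e1 e4

/-- closability of the gradient -/
theorem s1_closable {Ω : Set ℂ} {φ : ℕ → ℂ → ℝ} (hφ : ∀ n, Tst Ω (φ n))
    {v : ℂ → ℝ} {G : ℂ → ℂ} (h : Lim φ v G) (hv : v =ᵐ[volume] 0) : G =ᵐ[volume] 0 := by
  have hm := h.s1_memLp hφ
  have hloc : LocallyIntegrable G volume := hm.2.locallyIntegrable (by norm_num)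
  have := ae_eq_zero_of_integral_contDiff_smul_eq_zero hloc ?_
  · exact this
  intro ψ hψ hψc
  have hint : Integrable (fun z => ψ z • G z) volume :=
    hloc.integrable_smul_left_of_hasCompactSupport hψ.continuous hψc
  apply integral_eq_zero_of_forall_integral_inner_eq_zero ℝ _ hint
  intro w
  have h1 := s1_ibp hφ h hψ hψc w
  have h2 : ∫ z, v z * fderiv ℝ ψ z w = 0 := by
    rw [← integral_zero ℂ ℝ (μ := volume)]
    apply integral_congr_ae
    filter_upwards [hv] with z hz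
    rw [hz]; simp
  rw [h2, neg_zero] at h1
  rw [← h1]
  congr 1
  funext z
  rw [inner_smul_right, inner_smul_right, real_inner_comm]

end Pool.Agent.H87.LE
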