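import Mathlib

/-!
Abstract Lyapunov-Schmidt reduction along one direction in a real Hilbert space,
for functionals `J_P(v) = ‖v‖²/2 - N(P v)` with `P` an orthogonal projection.
-/

set_option autoImplicit false

open Filter Topology Metric
open scoped NNReal

namespace LE.LS

variable {H : Type*} [NormedAddCommGroup H] [InnerProductSpace ℝ H] [CompleteSpace H]

open scoped RealInnerProductSpace

/-- A symmetric operator which is bounded below is surjective. -/
theorem surj_of_lower (L : H →L[ℝ] H) (hL : ∀ x y, ⟪L x, y⟫ = ⟪x, L y⟫) {c : ℝ} (hc : 0 < c)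
    (hlow : ∀ x, c * ‖x‖ ≤ ‖L x‖) : Function.Surjective L := by
  have hanti : AntilipschitzWith (Real.toNNReal c⁻¹) L := by
    refine AddMonoidHomClass.antilipschitz_of_bound L ?_
    intro x
    rw [Real.coe_toNNReal _ (by positivity)]
    rw [inv_mul_eq_div, le_div_iff₀ hc]
    linarith [hlow x]
  have hclosed : IsClosed (LinearMap.range L.toLinearMap : Set H) :=
    hanti.isClosed_range L.uniformContinuous
  have hinj : ∀ x, L x = 0 → x = 0 := by
    intro x hx
    have := hlow x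
    rw [hx, norm_zero] at this
    have h2 : ‖x‖ ≤ 0 := by
      by_contra hcon
      push Not at hcon
      nlinarith
    exact norm_le_zero_iff.1 h2
  have htop : (LinearMap.range L.toLinearMap) = ⊤ := by
    have : CompleteSpace (LinearMap.range L.toLinearMap) := hclosed.completeSpace_coe
    rw [← Submodule.orthogonal_eq_bot_iff]
    rw [Submodule.eq_bot_iff]
    intro x hx
    apply hinj
    have h1 : ∀ y, ⟪L y, x⟫ = 0 := by
      intro y
      exact Submodule.inner_right_of_mem_orthogonal (K := LinearMap.range L.toLinearMap)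
        ⟨y, rfl⟩ hx
    have h2 : ⟪L x, L x⟫ = 0 := by
      have := h1 (L x)
      rwa [hL] at this
    exact inner_self_eq_zero.1 h2
  intro y
  have : y ∈ LinearMap.range L.toLinearMap := by rw [htop]; trivial
  obtain ⟨x, hx⟩ := this
  exact ⟨x, hx⟩

/-- Orthogonal projections, as operators. -/
structure IsProj (P : H →L[ℝ] H) : Prop where
  idem : ∀ x, P (P x) = P x
  symm : ∀ x y, ⟪P x, y⟫ = ⟪x, P y⟫

theorem IsProj.inner_self {P : H →L[ℝ] H} (hP : IsProj P) (x : H) : ⟪P x, x⟫ = ‖P x‖ ^ 2 := by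
  rw [← real_inner_self_eq_norm_sq, hP.symm x (P x), hP.idem, hP.symm]

theorem IsProj.norm_le {P : H →L[ℝ] H} (hP : IsProj P) (x : H) : ‖P x‖ ≤ ‖x‖ := by
  have h1 := hP.inner_self x
  have h2 : ⟪P x, x⟫ ≤ ‖P x‖ * ‖x‖ := real_inner_le_norm _ _
  rcases eq_or_lt_of_le (norm_nonneg (P x)) with h | h
  · rw [← h]; exact norm_nonneg _
  · nlinarith

/-- The fixed data of the reduction. -/
structure Setup (H : Type*) [NormedAddCommGroup H] [InnerProductSpace ℝ H] [CompleteSpace H] where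
  /-- nonlinear part of the functional -/
  N : H → ℝ
  /-- its gradient -/
  n : H → H
  /-- base critical point -/
  u : H
  /-- kernel direction -/
  e : H
  /-- derivative of the gradient at the base point -/
  T : H →L[ℝ] H
  /-- lower bound constant -/
  c : ℝ
  /-- radius of differentiability -/
  R : ℝ
  hR : 0 < R
  hN : ∀ v, ‖v - u‖ < R → HasGradientAt N (n v) v
  hT : ∀ x y, inner ℝ (T x) y = inner ℝ x (T y)
  hn : HasStrictFDerivAt n T u
  hu : n u = u
  he : ‖e‖ = 1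
  hc : 0 < c
  hc1 : c ≤ 1

namespace Setup

variable (S : Setup H)

/-- projection onto the orthogonal complement of `e` -/
noncomputable def pi : H →L[ℝ] H :=
  ContinuousLinearMap.id ℝ H - (innerSL ℝ S.e).smulRight S.e

theorem pi_apply (x : H) : S.pi x = x - ⟪S.e, x⟫ • S.e := by
  simp [pi]

theorem inner_e_e : ⟪S.e, S.e⟫ = 1 := by
  rw [real_inner_self_eq_norm_sq, S.he]; norm_num

theorem inner_e_pi (x : H) : ⟪S.e, S.pi x⟫ = 0 := by
  rw [S.pi_apply, inner_sub_right, inner_smul_right, S.inner_e_e]; ring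

theorem pi_eq_self {x : H} (hx : ⟪S.e, x⟫ = 0) : S.pi x = x := by
  rw [S.pi_apply, hx]; simp

theorem pi_e : S.pi S.e = 0 := by
  rw [S.pi_apply, S.inner_e_e]; simp

theorem isProj_pi : IsProj S.pi where
  idem x := S.pi_eq_self (S.inner_e_pi x)
  symm x y := by
    rw [S.pi_apply, S.pi_apply, inner_sub_left, inner_sub_right, inner_smul_left,
      inner_smul_right, real_inner_comm x S.e]
    simp
    ring

theorem norm_pi_le (x : H) : ‖S.pi x‖ ≤ ‖x‖ := S.isProj_pi.norm_le x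

/-- admissible projections -/
structure Good (P : H →L[ℝ] H) : Prop extends IsProj P where
  fix : P S.u = S.u
  low : ∀ w, inner ℝ S.e w = 0 → S.c * ‖w‖ ≤ ‖S.pi (w - P (S.T (P w)))‖

/-- gradient of the reduced functional -/
def F (P : H →L[ℝ] H) (v : H) : H := v - P (S.n (P v))

/-- the reduced functional -/
noncomputable def J (P : H →L[ℝ] H) (v : H) : ℝ := ‖v‖ ^ 2 / 2 - S.N (P v)

theorem exists_r : ∃ r : ℝ, 0 < r ∧ ∀ v ∈ closedBall S.u r, ∀ v' ∈ closedBall S.u r,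
    ‖S.n v - S.n v' - S.T (v - v')‖ ≤ S.c / 2 * ‖v - v'‖ := by
  have hc2 : 0 < S.c / 2 := half_pos S.hc
  obtain ⟨s, hs, happ⟩ := S.hn.approximates_deriv_on_nhds
    (c := ⟨S.c / 2, hc2.le⟩) (Or.inr (by
      show (0 : ℝ) < S.c / 2
      exact hc2))
  obtain ⟨r, hr, hrs⟩ := Metric.nhds_basis_closedBall.mem_iff.1 hs
  refine ⟨r, hr, ?_⟩
  intro v hv v' hv'
  exact happ v (hrs hv) v' (hrs hv')

/-- radius on which the gradient is close to linear -/
noncomputable def r : ℝ := min (Classical.choose S.exists_r) (S.R / 2)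

theorem r_pos : 0 < S.r := lt_min (Classical.choose_spec S.exists_r).1 (half_pos S.hR)

theorem r_lt_R : S.r < S.R := by
  have := min_le_right (Classical.choose S.exists_r) (S.R / 2)
  have := S.hR
  unfold r; linarith

theorem r_spec {v v' : H} (hv : ‖v - S.u‖ ≤ S.r) (hv' : ‖v' - S.u‖ ≤ S.r) :
    ‖S.n v - S.n v' - S.T (v - v')‖ ≤ S.c / 2 * ‖v - v'‖ :=
  (Classical.choose_spec S.exists_r).2 v
    (by rw [mem_closedBall, dist_eq_norm]; exact hv.trans (min_le_left _ _)) v'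
    (by rw [mem_closedBall, dist_eq_norm]; exact hv'.trans (min_le_left _ _))

/-- Lipschitz constant of `F` near `u` -/
noncomputable def M : ℝ := 1 + ‖S.T‖ + S.c / 2

theorem M_pos : 0 < S.M := by
  have := S.hc; have := norm_nonneg S.T; unfold M; linarith

variable {S} {P : H →L[ℝ] H}

theorem Good.norm_sub_u (hP : S.Good P) (v : H) : ‖P v - S.u‖ ≤ ‖v - S.u‖ := by
  have : P v - S.u = P (v - S.u) := by rw [map_sub, hP.fix]
  rw [this]
  exact hP.toIsProj.norm_le _

theorem Good.F_u (hP : S.Good P) : S.F P S.u = 0 := by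
  simp [F, hP.fix, S.hu]

theorem Good.F_sub (hP : S.Good P) {v v' : H} (hv : ‖v - S.u‖ ≤ S.r) (hv' : ‖v' - S.u‖ ≤ S.r) :
    ‖S.F P v - S.F P v' - ((v - v') - P (S.T (P (v - v'))))‖ ≤ S.c / 2 * ‖v - v'‖ := by
  have e1 : S.F P v - S.F P v' - ((v - v') - P (S.T (P (v - v'))))
      = - P (S.n (P v) - S.n (P v') - S.T (P v - P v')) := by
    simp only [F, map_sub]; abel
  rw [e1, norm_neg]
  refine (hP.toIsProj.norm_le _).trans ?_
  refine (S.r_spec ((hP.norm_sub_u v).trans hv) ((hP.norm_sub_u v').trans hv')).trans ?_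
  have : ‖P v - P v'‖ ≤ ‖v - v'‖ := by
    rw [← map_sub]; exact hP.toIsProj.norm_le _
  have := S.hc
  gcongr

theorem Good.norm_lin (hP : S.Good P) (x : H) : ‖x - P (S.T (P x))‖ ≤ (1 + ‖S.T‖) * ‖x‖ := by
  have h1 : ‖P (S.T (P x))‖ ≤ ‖S.T‖ * ‖x‖ := by
    refine (hP.toIsProj.norm_le _).trans ((S.T.le_opNorm _).trans ?_)
    gcongr
    exact hP.toIsProj.norm_le _
  calc ‖x - P (S.T (P x))‖ ≤ ‖x‖ + ‖P (S.T (P x))‖ := norm_sub_le _ _
    _ ≤ (1 + ‖S.T‖) * ‖x‖ := by linarith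

theorem Good.F_lip (hP : S.Good P) {v v' : H} (hv : ‖v - S.u‖ ≤ S.r) (hv' : ‖v' - S.u‖ ≤ S.r) :
    ‖S.F P v - S.F P v'‖ ≤ S.M * ‖v - v'‖ := by
  have h1 := hP.F_sub hv hv'
  have h2 := hP.norm_lin (v - v')
  have h3 : ‖S.F P v - S.F P v'‖ ≤ ‖S.F P v - S.F P v' - ((v - v') - P (S.T (P (v - v'))))‖
      + ‖(v - v') - P (S.T (P (v - v')))‖ := by
    have := norm_add_le (S.F P v - S.F P v' - ((v - v') - P (S.T (P (v - v')))))
      ((v - v') - P (S.T (P (v - v'))))
    simpa using this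
  unfold M
  nlinarith

/-- the basic a priori estimate -/
theorem Good.key (hP : S.Good P) {s s' : ℝ} {w w' : H} (hw : ⟪S.e, w⟫ = 0) (hw' : ⟪S.e, w'⟫ = 0)
    (hv : ‖s • S.e + w‖ ≤ S.r) (hv' : ‖s' • S.e + w'‖ ≤ S.r) :
    S.c / 2 * ‖w - w'‖ ≤
      ‖S.pi (S.F P (S.u + (s • S.e + w))) - S.pi (S.F P (S.u + (s' • S.e + w')))‖
        + S.M * |s - s'| := by
  set v := S.u + (s • S.e + w) with hvdef
  set v' := S.u + (s' • S.e + w') with hvdef'
  have h1 := hP.F_sub (v := v) (v' := v') (by simpa [hvdef] using hv)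
    (by simpa [hvdef'] using hv')
  have hvv : v - v' = (s - s') • S.e + (w - w') := by
    rw [hvdef, hvdef', sub_smul]; abel
  have hww : ⟪S.e, w - w'⟫ = 0 := by rw [inner_sub_right, hw, hw']; ring
  have h2 := hP.low (w - w') hww
  have h3 := hP.norm_lin ((s - s') • S.e)
  have h4 : ‖(s - s') • S.e‖ = |s - s'| := by
    rw [norm_smul, S.he, Real.norm_eq_abs]; ring
  have h5 : ‖v - v'‖ ≤ |s - s'| + ‖w - w'‖ := by
    rw [hvv]; exact (norm_add_le _ _).trans (by rw [h4])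
  -- decompose
  have h6 : S.pi ((w - w') - P (S.T (P (w - w')))) =
      (S.pi (S.F P v) - S.pi (S.F P v'))
      - S.pi (S.F P v - S.F P v' - ((v - v') - P (S.T (P (v - v')))))
      - S.pi ((s - s') • S.e - P (S.T (P ((s - s') • S.e)))) := by
    rw [← map_sub, ← map_sub, ← map_sub]
    congr 1
    rw [hvv]
    simp only [map_add]
    abel
  have h7 : ‖S.pi ((w - w') - P (S.T (P (w - w'))))‖ ≤
      ‖S.pi (S.F P v) - S.pi (S.F P v')‖ + S.c / 2 * ‖v - v'‖ + (1 + ‖S.T‖) * |s - s'| := by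
    rw [h6]
    refine (norm_sub_le _ _).trans ?_
    refine add_le_add ((norm_sub_le _ _).trans ?_) ?_
    · gcongr
      exact (S.norm_pi_le _).trans h1
    · refine (S.norm_pi_le _).trans ?_
      rw [← h4]; exact h3
  have hc := S.hc
  have : S.c / 2 * ‖v - v'‖ ≤ S.c / 2 * (|s - s'| + ‖w - w'‖) := by gcongr
  unfold M
  nlinarith

/-- existence radius for the parameter -/
noncomputable def s0 (S : Setup H) : ℝ := min (S.r / 2) (S.c / 2 * (S.r / 2) / S.M)

theorem s0_pos (S : Setup H) : 0 < S.s0 := by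
  have := S.r_pos; have := S.hc; have := S.M_pos
  unfold s0
  apply lt_min <;> positivity

/-- the linear operator used in the fixed point argument -/
noncomputable def Lhat (S : Setup H) (P : H →L[ℝ] H) : H →L[ℝ] H :=
  (innerSL ℝ S.e).smulRight S.e + S.pi ∘L (ContinuousLinearMap.id ℝ H - P ∘L S.T ∘L P) ∘L S.pi

theorem Lhat_apply (x : H) :
    S.Lhat P x = ⟪S.e, x⟫ • S.e + S.pi (S.pi x - P (S.T (P (S.pi x)))) := by
  simp [Lhat]

theorem norm_sq_decomp (S : Setup H) {a : ℝ} {y : H} (hy : ⟪S.e, y⟫ = 0) :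
    ‖a • S.e + y‖ ^ 2 = a ^ 2 + ‖y‖ ^ 2 := by
  rw [norm_add_sq_real, inner_smul_left, hy, norm_smul, S.he, Real.norm_eq_abs]
  simp

theorem decomp (S : Setup H) (x : H) : x = ⟪S.e, x⟫ • S.e + S.pi x := by
  rw [S.pi_apply]; abel

theorem Good.Lhat_lower (hP : S.Good P) (x : H) : S.c * ‖x‖ ≤ ‖S.Lhat P x‖ := by
  have h1 : ‖S.Lhat P x‖ ^ 2 = ⟪S.e, x⟫ ^ 2 + ‖S.pi (S.pi x - P (S.T (P (S.pi x))))‖ ^ 2 := by
    rw [Lhat_apply]; exact S.norm_sq_decomp (S.inner_e_pi _)
  have h2 : ‖x‖ ^ 2 = ⟪S.e, x⟫ ^ 2 + ‖S.pi x‖ ^ 2 := by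
    conv_lhs => rw [S.decomp x]
    exact S.norm_sq_decomp (S.inner_e_pi _)
  have h3 := hP.low (S.pi x) (S.inner_e_pi x)
  have hc := S.hc
  have hc1 := S.hc1
  apply le_of_sq_le_sq _ (norm_nonneg _)
  · rw [mul_pow, h1, h2]
    have h4 : (S.c * ‖S.pi x‖) ^ 2 ≤ ‖S.pi (S.pi x - P (S.T (P (S.pi x))))‖ ^ 2 := by
      gcongr
    have h5 : S.c ^ 2 * ⟪S.e, x⟫ ^ 2 ≤ ⟪S.e, x⟫ ^ 2 := by
      have : S.c ^ 2 ≤ 1 := by nlinarith
      nlinarith [sq_nonneg ⟪S.e, x⟫]
    nlinarith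

theorem Good.Lhat_symm (hP : S.Good P) (x y : H) : ⟪S.Lhat P x, y⟫ = ⟪x, S.Lhat P y⟫ := by
  rw [Lhat_apply, Lhat_apply, inner_add_left, inner_add_right, inner_smul_left, inner_smul_right]
  have h1 : ⟪S.pi (S.pi x - P (S.T (P (S.pi x)))), y⟫ =
      ⟪x, S.pi (S.pi y - P (S.T (P (S.pi y))))⟫ := by
    rw [S.isProj_pi.symm _ y, ← S.isProj_pi.symm x, inner_sub_left, inner_sub_right,
      hP.symm, S.hT, hP.symm]
  rw [h1, real_inner_comm x S.e]
  simp
  ring

theorem Good.exists_w (hP : S.Good P) {s : ℝ} (hs : |s| ≤ S.s0) :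
    ∃ w, ⟪S.e, w⟫ = 0 ∧ ‖w‖ ≤ S.r / 2 ∧ S.pi (S.F P (S.u + (s • S.e + w))) = 0 := by
  have hr := S.r_pos
  have hc := S.hc
  have hM := S.M_pos
  have hs1 : |s| ≤ S.r / 2 := hs.trans (min_le_left _ _)
  have hs2 : S.M * |s| ≤ S.c / 2 * (S.r / 2) := by
    have := hs.trans (min_le_right _ _)
    rw [le_div_iff₀ hM] at this
    linarith
  let g : H → H := fun x => ⟪S.e, x⟫ • S.e + S.pi (S.F P (S.u + (s • S.e + S.pi x)))
  have hsurj := surj_of_lower (S.Lhat P) hP.Lhat_symm hc hP.Lhat_lower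
  choose inv hinv using hsurj
  let R : (S.Lhat P).NonlinearRightInverse :=
    { toFun := inv
      nnnorm := ⟨S.c⁻¹, by positivity⟩
      bound' := by
        intro y
        have := hP.Lhat_lower (inv y)
        rw [hinv] at this
        show ‖inv y‖ ≤ S.c⁻¹ * ‖y‖
        rw [inv_mul_eq_div, le_div_iff₀ hc]; linarith
      right_inv' := hinv }
  have hsn : ‖s • S.e‖ = |s| := by rw [norm_smul, S.he, Real.norm_eq_abs]; ring
  have hball : ∀ x : H, ‖x‖ ≤ S.r / 2 → ‖(S.u + (s • S.e + S.pi x)) - S.u‖ ≤ S.r := by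
    intro x hx
    have : (S.u + (s • S.e + S.pi x)) - S.u = s • S.e + S.pi x := by abel
    rw [this]
    refine (norm_add_le _ _).trans ?_
    have := S.norm_pi_le x
    rw [hsn]; linarith
  have happ : ApproximatesLinearOn g (S.Lhat P) (closedBall 0 (S.r / 2)) ⟨S.c / 2, by positivity⟩ := by
    intro x hx y hy
    have hx' := hball x (by simpa using hx)
    have hy' := hball y (by simpa using hy)
    have h1 := hP.F_sub hx' hy'
    have e1 : (S.u + (s • S.e + S.pi x)) - (S.u + (s • S.e + S.pi y)) = S.pi (x - y) := by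
      rw [map_sub]; abel
    rw [e1] at h1
    have e2 : g x - g y - S.Lhat P (x - y) =
        S.pi (S.F P (S.u + (s • S.e + S.pi x)) - S.F P (S.u + (s • S.e + S.pi y))
          - (S.pi (x - y) - P (S.T (P (S.pi (x - y)))))) := by
      simp only [g, Lhat_apply, map_sub]
      abel
    rw [e2]
    refine (S.norm_pi_le _).trans (h1.trans ?_)
    have := S.norm_pi_le (x - y)
    show S.c / 2 * ‖S.pi (x - y)‖ ≤ S.c / 2 * ‖x - y‖
    gcongr
  have hsurjOn := happ.surjOn_closedBall_of_nonlinearRightInverse R (ε := S.r / 2) (b := 0)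
    (by positivity) (subset_refl _)
  have hg0 : ‖g 0‖ ≤ S.M * |s| := by
    have : g 0 = S.pi (S.F P (S.u + s • S.e)) := by simp [g]
    rw [this]
    refine (S.norm_pi_le _).trans ?_
    have h := hP.F_lip (v := S.u + s • S.e) (v' := S.u) (by
      have : S.u + s • S.e - S.u = s • S.e := by abel
      rw [this, hsn]; linarith) (by simp; linarith)
    rw [hP.F_u, sub_zero] at h
    have e3 : S.u + s • S.e - S.u = s • S.e := by abel
    rw [e3, hsn] at h
    exact h
  have h0 : (0 : H) ∈ closedBall (g 0)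
      ((((R.nnnorm : ℝ))⁻¹ - ((⟨S.c / 2, by positivity⟩ : ℝ≥0) : ℝ)) * (S.r / 2)) := by
    rw [mem_closedBall, dist_eq_norm, zero_sub, norm_neg]
    refine hg0.trans (hs2.trans ?_)
    show S.c / 2 * (S.r / 2) ≤ ((S.c⁻¹)⁻¹ - S.c / 2) * (S.r / 2)
    rw [inv_inv]
    apply le_of_eq
    ring
  obtain ⟨x, hx, hgx⟩ := hsurjOn h0
  have hxr : ‖x‖ ≤ S.r / 2 := by simpa using hx
  have h1 : S.pi (g x) = S.pi (S.F P (S.u + (s • S.e + S.pi x))) := by
    simp only [g]
    rw [map_add, map_smul, S.pi_e, S.isProj_pi.idem]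
    simp
  refine ⟨S.pi x, S.inner_e_pi x, (S.norm_pi_le x).trans hxr, ?_⟩
  rw [← h1, hgx, map_zero]

open Classical in
/-- the solution of the auxiliary equation -/
noncomputable def w (S : Setup H) (P : H →L[ℝ] H) (s : ℝ) : H :=
  if h : ∃ w, ⟪S.e, w⟫ = 0 ∧ ‖w‖ ≤ S.r / 2 ∧ S.pi (S.F P (S.u + (s • S.e + w))) = 0
    then Classical.choose h else 0

theorem Good.w_spec (hP : S.Good P) {s : ℝ} (hs : |s| ≤ S.s0) :
    ⟪S.e, S.w P s⟫ = 0 ∧ ‖S.w P s‖ ≤ S.r / 2 ∧
      S.pi (S.F P (S.u + (s • S.e + S.w P s))) = 0 := by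
  have h := hP.exists_w hs
  unfold w
  rw [dif_pos h]
  exact Classical.choose_spec h

/-- the point of the reduced curve -/
noncomputable def pt (S : Setup H) (P : H →L[ℝ] H) (s : ℝ) : H := S.u + (s • S.e + S.w P s)

/-- reduced function -/
noncomputable def f (S : Setup H) (P : H →L[ℝ] H) (s : ℝ) : ℝ := S.J P (S.pt P s)

/-- its derivative -/
noncomputable def rho (S : Setup H) (P : H →L[ℝ] H) (s : ℝ) : ℝ := ⟪S.e, S.F P (S.pt P s)⟫

theorem Good.F_pt (hP : S.Good P) {s : ℝ} (hs : |s| ≤ S.s0) :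
    S.F P (S.pt P s) = S.rho P s • S.e := by
  have h : S.pi (S.F P (S.pt P s)) = 0 := (hP.w_spec hs).2.2
  have h2 := S.decomp (S.F P (S.pt P s))
  rw [h, add_zero] at h2
  exact h2

theorem norm_smul_e (S : Setup H) (s : ℝ) : ‖s • S.e‖ = |s| := by
  rw [norm_smul, S.he, Real.norm_eq_abs]; ring

theorem Good.norm_pt (hP : S.Good P) {s : ℝ} (hs : |s| ≤ S.s0) :
    ‖s • S.e + S.w P s‖ ≤ S.r := by
  have hs1 : |s| ≤ S.r / 2 := hs.trans (min_le_left _ _)
  refine (norm_add_le _ _).trans ?_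
  rw [S.norm_smul_e]
  linarith [(hP.w_spec hs).2.1]

theorem Good.norm_pt_sub (hP : S.Good P) {s : ℝ} (hs : |s| ≤ S.s0) :
    ‖S.pt P s - S.u‖ ≤ S.r := by
  have : S.pt P s - S.u = s • S.e + S.w P s := by unfold pt; abel
  rw [this]; exact hP.norm_pt hs

/-- uniqueness in quantitative form -/
theorem Good.dist_w (hP : S.Good P) {s : ℝ} (hs : |s| ≤ S.s0) {w' : H} (hw' : ⟪S.e, w'⟫ = 0)
    (hv' : ‖s • S.e + w'‖ ≤ S.r) :
    S.c / 2 * ‖w' - S.w P s‖ ≤ ‖S.pi (S.F P (S.u + (s • S.e + w')))‖ := by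
  have h := hP.key hw' (hP.w_spec hs).1 hv' (hP.norm_pt hs)
  rw [(hP.w_spec hs).2.2] at h
  simpa using h

theorem Good.w_lip (hP : S.Good P) {s s' : ℝ} (hs : |s| ≤ S.s0) (hs' : |s'| ≤ S.s0) :
    S.c / 2 * ‖S.w P s - S.w P s'‖ ≤ S.M * |s - s'| := by
  have h := hP.key (hP.w_spec hs).1 (hP.w_spec hs').1 (hP.norm_pt hs) (hP.norm_pt hs')
  rw [(hP.w_spec hs).2.2, (hP.w_spec hs').2.2] at h
  simpa using h

theorem Good.w_zero (hP : S.Good P) : S.w P 0 = 0 := by
  have hs : |(0 : ℝ)| ≤ S.s0 := by rw [abs_zero]; exact S.s0_pos.le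
  have h := hP.dist_w hs (w' := 0) (by simp) (by simp; exact S.r_pos.le)
  have : S.u + ((0 : ℝ) • S.e + 0) = S.u := by simp
  rw [this, hP.F_u, map_zero, norm_zero, zero_sub, norm_neg] at h
  have hc := S.hc
  have : ‖S.w P 0‖ ≤ 0 := by
    by_contra hcon
    push Not at hcon
    nlinarith [mul_pos hc hcon]
  exact norm_le_zero_iff.1 this

theorem Good.pt_zero (hP : S.Good P) : S.pt P 0 = S.u := by
  unfold pt; rw [hP.w_zero]; simp

/-- level of the base solution -/
noncomputable def J0 (S : Setup H) : ℝ := ‖S.u‖ ^ 2 / 2 - S.N S.u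

theorem Good.f_zero (hP : S.Good P) : S.f P 0 = S.J0 := by
  unfold f J0; rw [hP.pt_zero]; unfold J; rw [hP.fix]

theorem Good.hasGradientAt_J (hP : S.Good P) {v : H} (hv : ‖v - S.u‖ < S.R) :
    HasGradientAt (S.J P) (S.F P v) v := by
  have h1 : HasFDerivAt (fun v : H => ‖v‖ ^ 2) (2 • (innerSL ℝ v)) v := by
    simpa using (hasStrictFDerivAt_norm_sq v).hasFDerivAt
  have h2 : HasFDerivAt (fun v : H => S.N (P v)) ((innerSL ℝ (S.n (P v))) ∘L P) v := by
    have := (S.hN (P v) ((hP.norm_sub_u v).trans_lt hv)).hasFDerivAt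
    exact this.comp v P.hasFDerivAt
  have h3 : HasFDerivAt (S.J P) ((1 / 2 : ℝ) • (2 • (innerSL ℝ v)) - (innerSL ℝ (S.n (P v))) ∘L P)
      v := by
    have := (h1.const_smul (1 / 2 : ℝ)).sub h2
    refine this.congr_of_eventuallyEq ?_
    filter_upwards with x
    simp [J]; ring
  rw [hasGradientAt_iff_hasFDerivAt]
  refine h3.congr_fderiv ?_
  ext x
  simp only [F]
  simp [hP.symm]

theorem Good.pt_sub (hP : S.Good P) {s s' : ℝ} (hs : |s| ≤ S.s0) (hs' : |s'| ≤ S.s0) :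
    ‖S.pt P s - S.pt P s'‖ ≤ (1 + 2 * S.M / S.c) * |s - s'| := by
  have h1 : S.pt P s - S.pt P s' = (s - s') • S.e + (S.w P s - S.w P s') := by
    unfold pt; rw [sub_smul]; abel
  have h2 := hP.w_lip hs hs'
  have hc := S.hc
  have h3 : ‖S.w P s - S.w P s'‖ ≤ 2 * S.M / S.c * |s - s'| := by
    rw [div_mul_eq_mul_div, le_div_iff₀ hc]
    nlinarith
  rw [h1]
  refine (norm_add_le _ _).trans ?_
  rw [S.norm_smul_e]
  linarith

theorem Good.hasDerivAt_f (hP : S.Good P) {s : ℝ} (hs : |s| < S.s0) :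
    HasDerivAt (S.f P) (S.rho P s) s := by
  have hJ := hP.hasGradientAt_J ((hP.norm_pt_sub hs.le).trans_lt S.r_lt_R)
  have hJ' := (hasGradientAt_iff_hasFDerivAt.1 hJ)
  rw [hasFDerivAt_iff_isLittleO] at hJ'
  rw [hasDerivAt_iff_isLittleO]
  have hev : ∀ᶠ t in 𝓝 s, |t| ≤ S.s0 := by
    have : ∀ᶠ t in 𝓝 s, |t| < S.s0 := by
      have hcont : Continuous (fun t : ℝ => |t|) := continuous_abs
      exact hcont.continuousAt.eventually (gt_mem_nhds hs) |>.mono fun t ht => ht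
    exact this.mono fun t ht => ht.le
  have hO : (fun t => S.pt P t - S.pt P s) =O[𝓝 s] (fun t => t - s) := by
    refine Asymptotics.IsBigO.of_bound (1 + 2 * S.M / S.c) ?_
    filter_upwards [hev] with t ht
    rw [Real.norm_eq_abs]
    exact hP.pt_sub ht hs.le
  have hcont : Tendsto (S.pt P) (𝓝 s) (𝓝 (S.pt P s)) := by
    have h0 : Tendsto (fun t : ℝ => t - s) (𝓝 s) (𝓝 0) := by
      have : Tendsto (fun t : ℝ => t - s) (𝓝 s) (𝓝 (s - s)) :=
        (continuous_id.sub continuous_const).tendsto s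
      simpa using this
    have := hO.trans_tendsto h0
    have h2 := this.add_const (S.pt P s)
    simpa using h2
  have hcomp := (hJ'.comp_tendsto hcont).trans_isBigO hO
  refine hcomp.congr' ?_ (by rfl)
  filter_upwards [hev] with t ht
  simp only [Function.comp]
  have e1 : S.pt P t - S.pt P s = (t - s) • S.e + (S.w P t - S.w P s) := by
    unfold pt; rw [sub_smul]; abel
  have e2 : ⟪S.F P (S.pt P s), S.pt P t - S.pt P s⟫ = (t - s) * S.rho P s := by
    rw [hP.F_pt hs.le, e1, inner_smul_left, inner_add_right, inner_smul_right, S.inner_e_e,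
      inner_sub_right, (hP.w_spec ht).1, (hP.w_spec hs.le).1]
    simp
    ring
  simp only [InnerProductSpace.toDual_apply_apply]
  rw [e2]
  simp [f]

/-- second order Taylor estimate -/
theorem Good.taylor (hP : S.Good P) {v v' : H} (hv : ‖v - S.u‖ ≤ S.r) (hv' : ‖v' - S.u‖ ≤ S.r) :
    |S.J P v - S.J P v' - ⟪S.F P v', v - v'⟫| ≤ S.M * ‖v - v'‖ ^ 2 := by
  have hball : Convex ℝ (closedBall S.u S.r) := convex_closedBall _ _
  have hmem : v ∈ closedBall S.u S.r := by rwa [mem_closedBall, dist_eq_norm]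
  have hmem' : v' ∈ closedBall S.u S.r := by rwa [mem_closedBall, dist_eq_norm]
  have hseg : segment ℝ v' v ⊆ closedBall S.u S.r := hball.segment_subset hmem' hmem
  let g : H → ℝ := fun x => S.J P x - ⟪S.F P v', x⟫
  have hg : ∀ x ∈ segment ℝ v' v, HasFDerivWithinAt g
      (innerSL ℝ (S.F P x) - innerSL ℝ (S.F P v')) (segment ℝ v' v) x := by
    intro x hx
    have hx' : ‖x - S.u‖ ≤ S.r := by
      have := hseg hx
      rwa [mem_closedBall, dist_eq_norm] at this
    have h1 := (hasGradientAt_iff_hasFDerivAt.1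
      (hP.hasGradientAt_J (hx'.trans_lt S.r_lt_R))).hasFDerivWithinAt
      (s := segment ℝ v' v)
    have h2 : HasFDerivWithinAt (fun x : H => ⟪S.F P v', x⟫) (innerSL ℝ (S.F P v'))
        (segment ℝ v' v) x := (innerSL ℝ (S.F P v')).hasFDerivWithinAt
    exact h1.sub h2
  have hbound : ∀ x ∈ segment ℝ v' v,
      ‖innerSL ℝ (S.F P x) - innerSL ℝ (S.F P v')‖ ≤ S.M * ‖v - v'‖ := by
    intro x hx
    rw [← map_sub, innerSL_apply_norm]
    have hx' : ‖x - S.u‖ ≤ S.r := by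
      have := hseg hx
      rwa [mem_closedBall, dist_eq_norm] at this
    refine (hP.F_lip hx' hv').trans ?_
    have hM := S.M_pos
    have : ‖x - v'‖ ≤ ‖v - v'‖ := by
      obtain ⟨t, ht, rfl⟩ := (segment_eq_image' ℝ v' v) ▸ hx
      have : v' + t • (v - v') - v' = t • (v - v') := by abel
      simp only [this]
      rw [norm_smul, Real.norm_eq_abs, abs_of_nonneg ht.1]
      exact mul_le_of_le_one_left (norm_nonneg _) ht.2
    gcongr
  have h := (convex_segment v' v).norm_image_sub_le_of_norm_hasFDerivWithin_le hg hbound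
    (left_mem_segment ℝ v' v) (right_mem_segment ℝ v' v)
  have e1 : g v - g v' = S.J P v - S.J P v' - ⟪S.F P v', v - v'⟫ := by
    simp only [g, inner_sub_right]; ring
  rw [e1, Real.norm_eq_abs] at h
  rw [sq, ← mul_assoc]
  exact h

/-- The reduced function is close to the functional. -/
theorem Good.f_sub_J' (hP : S.Good P) {s : ℝ} (hs : |s| ≤ S.s0) {v : H}
    (hv : ⟪S.e, v - S.u⟫ = s) (hr : ‖v - S.u‖ ≤ S.r) :
    |S.f P s - S.J P v| ≤ 4 * S.M / S.c ^ 2 * ‖S.F P v‖ ^ 2 := by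
  set w' := v - S.u - s • S.e with hw'
  have h1 : s • S.e + w' = v - S.u := by rw [hw']; abel
  have h1' : S.u + (s • S.e + w') = v := by rw [h1]; abel
  have hwe : ⟪S.e, w'⟫ = 0 := by
    rw [hw', inner_sub_right, inner_smul_right, hv, S.inner_e_e]; ring
  have hd := hP.dist_w hs hwe (by rw [h1]; exact hr)
  rw [h1'] at hd
  have hd2 : S.c / 2 * ‖w' - S.w P s‖ ≤ ‖S.F P v‖ := hd.trans (S.norm_pi_le _)
  have e1 : v - S.pt P s = w' - S.w P s := by
    unfold pt; rw [hw']; abel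
  have ht := hP.taylor (v := v) (v' := S.pt P s) hr (hP.norm_pt_sub hs)
  have h0 : ⟪S.F P (S.pt P s), v - S.pt P s⟫ = 0 := by
    rw [hP.F_pt hs, e1, inner_smul_left, inner_sub_right, hwe, (hP.w_spec hs).1]; simp
  rw [h0, sub_zero, e1] at ht
  have hc := S.hc
  have hM := S.M_pos
  have h3 : ‖w' - S.w P s‖ ≤ 2 / S.c * ‖S.F P v‖ := by
    rw [div_mul_eq_mul_div, le_div_iff₀ hc]; linarith
  rw [abs_sub_comm]
  unfold f
  refine ht.trans ?_
  calc S.M * ‖w' - S.w P s‖ ^ 2 ≤ S.M * (2 / S.c * ‖S.F P v‖) ^ 2 := by gcongr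
    _ = 4 * S.M / S.c ^ 2 * ‖S.F P v‖ ^ 2 := by field_simp; ring

/-- The reduced function is close to the functional along any curve `u + s φ` with
`⟪e, φ⟫ = 1`. -/
theorem Good.f_sub_J (hP : S.Good P) {s : ℝ} (hs : |s| ≤ S.s0) {φ : H} (hφ : ⟪S.e, φ⟫ = 1)
    (hr : ‖s • φ‖ ≤ S.r) :
    |S.f P s - S.J P (S.u + s • φ)| ≤ 4 * S.M / S.c ^ 2 * ‖S.F P (S.u + s • φ)‖ ^ 2 := by
  apply hP.f_sub_J' hs
  · rw [add_sub_cancel_left, inner_smul_right, hφ, mul_one]
  · rwa [add_sub_cancel_left]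

/-- the gradient is continuous on the ball -/
theorem n_continuousWithinAt {v : H} (hv : ‖v - S.u‖ ≤ S.r) :
    ContinuousWithinAt S.n (closedBall S.u S.r) v := by
  have hv' : v ∈ closedBall S.u S.r := by rwa [mem_closedBall, dist_eq_norm]
  have : LipschitzOnWith (Real.toNNReal (‖S.T‖ + S.c / 2)) S.n (closedBall S.u S.r) := by
    refine LipschitzOnWith.of_dist_le_mul ?_
    intro x hx y hy
    have hc := S.hc
    have hT := norm_nonneg S.T
    rw [Real.coe_toNNReal _ (by linarith), dist_eq_norm, dist_eq_norm]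
    have h := S.r_spec (v := x) (v' := y) (by rwa [mem_closedBall, dist_eq_norm] at hx)
      (by rwa [mem_closedBall, dist_eq_norm] at hy)
    have h2 := S.T.le_opNorm (x - y)
    have h3 := norm_add_le (S.n x - S.n y - S.T (x - y)) (S.T (x - y))
    rw [sub_add_cancel] at h3
    linarith
  exact this.continuousOn v hv'

theorem Good.tendsto_F (hP : S.Good P) {ι : Type*} {l : Filter ι} {Q : ι → H →L[ℝ] H}
    (hQ : ∀ i, S.Good (Q i)) (hconv : ∀ x, Tendsto (fun i => Q i x) l (𝓝 (P x)))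
    {v : H} (hv : ‖v - S.u‖ ≤ S.r) :
    Tendsto (fun i => S.F (Q i) v) l (𝓝 (S.F P v)) := by
  have h1 : Tendsto (fun i => S.n (Q i v)) l (𝓝 (S.n (P v))) := by
    have hcw := n_continuousWithinAt (S := S) (v := P v) ((hP.norm_sub_u v).trans hv)
    refine hcw.tendsto.comp ?_
    rw [tendsto_nhdsWithin_iff]
    refine ⟨hconv v, Eventually.of_forall fun i => ?_⟩
    rw [mem_closedBall, dist_eq_norm]
    exact ((hQ i).norm_sub_u v).trans hv
  have h2 : Tendsto (fun i => Q i (S.n (Q i v))) l (𝓝 (P (S.n (P v)))) := by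
    have h3 : Tendsto (fun i => Q i (S.n (Q i v) - S.n (P v)) + Q i (S.n (P v))) l
        (𝓝 (0 + P (S.n (P v)))) := by
      refine Tendsto.add ?_ (hconv _)
      have h4 : Tendsto (fun i => S.n (Q i v) - S.n (P v)) l (𝓝 0) := by
        simpa using h1.sub_const (S.n (P v))
      rw [tendsto_zero_iff_norm_tendsto_zero] at h4 ⊢
      refine squeeze_zero (fun i => norm_nonneg _) (fun i => (hQ i).toIsProj.norm_le _) h4
    rw [zero_add] at h3
    refine h3.congr fun i => ?_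
    rw [← map_add]; simp
  exact tendsto_const_nhds.sub h2

theorem Good.tendsto_w (hP : S.Good P) {ι : Type*} {l : Filter ι} {Q : ι → H →L[ℝ] H}
    (hQ : ∀ i, S.Good (Q i)) (hconv : ∀ x, Tendsto (fun i => Q i x) l (𝓝 (P x)))
    {s : ℝ} (hs : |s| ≤ S.s0) :
    Tendsto (fun i => S.w (Q i) s) l (𝓝 (S.w P s)) := by
  have h1 := hP.tendsto_F hQ hconv (hP.norm_pt_sub hs)
  have h2 : Tendsto (fun i => S.pi (S.F (Q i) (S.pt P s))) l (𝓝 0) := by
    have h3 := (S.pi.continuous.tendsto _).comp h1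
    have h4 : S.pi (S.F P (S.pt P s)) = 0 := (hP.w_spec hs).2.2
    rw [h4] at h3
    exact h3
  rw [tendsto_zero_iff_norm_tendsto_zero] at h2
  have h5 : Tendsto (fun i => ‖S.w P s - S.w (Q i) s‖) l (𝓝 0) := by
    have hc := S.hc
    refine squeeze_zero (g := fun i => 2 / S.c * ‖S.pi (S.F (Q i) (S.pt P s))‖)
      (fun i => norm_nonneg _) (fun i => ?_) ?_
    · have := (hQ i).dist_w hs (hP.w_spec hs).1 (hP.norm_pt hs)
      rw [div_mul_eq_mul_div, le_div_iff₀ hc]
      unfold pt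
      linarith
    · simpa using h2.const_mul (2 / S.c)
  rw [tendsto_iff_norm_sub_tendsto_zero]
  refine h5.congr fun i => ?_
  rw [norm_sub_rev]

theorem Good.tendsto_f (hP : S.Good P) {ι : Type*} {l : Filter ι} {Q : ι → H →L[ℝ] H}
    (hQ : ∀ i, S.Good (Q i)) (hconv : ∀ x, Tendsto (fun i => Q i x) l (𝓝 (P x)))
    {s : ℝ} (hs : |s| ≤ S.s0) :
    Tendsto (fun i => S.f (Q i) s) l (𝓝 (S.f P s)) := by
  have hw := hP.tendsto_w hQ hconv hs
  have hpt : Tendsto (fun i => S.pt (Q i) s) l (𝓝 (S.pt P s)) := by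
    unfold pt
    exact (hw.const_add _).const_add _
  have hQpt : Tendsto (fun i => Q i (S.pt (Q i) s)) l (𝓝 (P (S.pt P s))) := by
    have h3 : Tendsto (fun i => Q i (S.pt (Q i) s - S.pt P s) + Q i (S.pt P s)) l
        (𝓝 (0 + P (S.pt P s))) := by
      refine Tendsto.add ?_ (hconv _)
      have h4 : Tendsto (fun i => S.pt (Q i) s - S.pt P s) l (𝓝 0) := by
        simpa using hpt.sub_const (S.pt P s)
      rw [tendsto_zero_iff_norm_tendsto_zero] at h4 ⊢
      exact squeeze_zero (fun i => norm_nonneg _) (fun i => (hQ i).toIsProj.norm_le _) h4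
    rw [zero_add] at h3
    refine h3.congr fun i => ?_
    rw [← map_add]; simp
  have hN : Tendsto (fun i => S.N (Q i (S.pt (Q i) s))) l (𝓝 (S.N (P (S.pt P s)))) :=
    ((S.hN (P (S.pt P s)) ((hP.norm_sub_u _).trans_lt
      ((hP.norm_pt_sub hs).trans_lt S.r_lt_R))).hasFDerivAt.continuousAt.tendsto).comp hQpt
  unfold f J
  exact ((hpt.norm.pow 2).div_const 2).sub hN

/-- a zero of `rho` gives a critical point -/
theorem Good.crit_of_rho (hP : S.Good P) {s : ℝ} (hs : |s| ≤ S.s0) (h : S.rho P s = 0) :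
    P (S.pt P s) = S.pt P s ∧ P (S.n (S.pt P s)) = S.pt P s ∧
      ‖S.pt P s‖ ^ 2 / 2 - S.N (S.pt P s) = S.f P s := by
  have h1 := hP.F_pt hs
  rw [h, zero_smul] at h1
  unfold F at h1
  have h2 : S.pt P s = P (S.n (P (S.pt P s))) := sub_eq_zero.1 h1
  have h3 : P (S.pt P s) = S.pt P s := by
    conv_rhs => rw [h2]
    conv_lhs => rw [h2]
    rw [hP.idem]
  refine ⟨h3, ?_, ?_⟩
  · rw [h3] at h2; exact h2.symm
  · unfold f J; rw [h3]

/-- **Infinitely many critical values.**  If the reduced function is above and below its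
value at `0` at points `0 < a < b < δ` for every `δ > 0`, then the functional restricted to
the range of `P` has infinitely many critical values below the base level. -/
theorem Good.infinite_critical_values (hP : S.Good P)
    (h : ∀ δ > 0, ∃ a b, 0 < a ∧ a < b ∧ b < δ ∧ S.J0 < S.f P a ∧ S.f P b < S.J0) :
    {y : ℝ | y < S.J0 ∧ ∃ v, P v = v ∧ P (S.n v) = v ∧ ‖v‖ ^ 2 / 2 - S.N v = y}.Infinite := by
  classical
  have hs0 := S.s0_pos
  set C := {y : ℝ | y < S.J0 ∧ ∃ v, P v = v ∧ P (S.n v) = v ∧ ‖v‖ ^ 2 / 2 - S.N v = y} with hC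
  have hcontAt : ∀ s, |s| < S.s0 → ContinuousAt (S.f P) s := fun s hs =>
    (hP.hasDerivAt_f hs).continuousAt
  -- for every level below, a critical value above it
  have main : ∀ y < S.J0, ∃ z ∈ C, y < z := by
    intro y hy
    have h0 : ContinuousAt (S.f P) 0 := hcontAt 0 (by simpa using hs0)
    have hev : ∀ᶠ s in 𝓝 (0 : ℝ), y < S.f P s := by
      apply h0.eventually (lt_mem_nhds _)
      rw [hP.f_zero]; exact hy
    obtain ⟨ε, hε, hεs⟩ := Metric.eventually_nhds_iff.1 hev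
    obtain ⟨a1, b1, ha1, hab1, hb1, hfa1, -⟩ := h (min ε S.s0) (lt_min hε hs0)
    obtain ⟨a2, b2, ha2, hab2, hb2, hfa2, hfb2⟩ := h a1 ha1
    -- min on [a2, a1]
    have ha1s : a1 < S.s0 := (hab1.trans hb1).trans_le (min_le_right _ _)
    have ha1ε : a1 < ε := (hab1.trans hb1).trans_le (min_le_left _ _)
    have hab : a2 < a1 := hab2.trans hb2
    have hcont : ContinuousOn (S.f P) (Set.Icc a2 a1) := by
      intro s hs
      refine (hcontAt s ?_).continuousWithinAt
      rw [abs_of_pos (ha2.trans_le hs.1)]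
      exact hs.2.trans_lt ha1s
    obtain ⟨m, hm, hmin⟩ := isCompact_Icc.exists_isMinOn (Set.nonempty_Icc.2 hab.le) hcont
    have hmb : S.f P m ≤ S.f P b2 := hmin ⟨hab2.le, hb2.le⟩
    have hmlt : S.f P m < S.J0 := hmb.trans_lt hfb2
    have hma2 : m ≠ a2 := by rintro rfl; linarith
    have hma1 : m ≠ a1 := by rintro rfl; linarith
    have hm1 : a2 < m := lt_of_le_of_ne hm.1 (Ne.symm hma2)
    have hm2 : m < a1 := lt_of_le_of_ne hm.2 hma1
    have hmpos : 0 < m := ha2.trans hm1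
    have hms : |m| < S.s0 := by rw [abs_of_pos hmpos]; exact hm2.trans ha1s
    have hloc : IsLocalMin (S.f P) m := hmin.isLocalMin (Icc_mem_nhds hm1 hm2)
    have hrho : S.rho P m = 0 := hloc.hasDerivAt_eq_zero (hP.hasDerivAt_f hms)
    obtain ⟨c1, c2, c3⟩ := hP.crit_of_rho hms.le hrho
    refine ⟨S.f P m, ⟨hmlt, S.pt P m, c1, c2, c3⟩, ?_⟩
    apply hεs
    rw [Real.dist_eq, sub_zero, abs_of_pos hmpos]
    exact hm2.trans ha1ε
  intro hfin
  obtain ⟨z0, hz0, -⟩ := main (S.J0 - 1) (by linarith)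
  have hne : hfin.toFinset.Nonempty := ⟨z0, by simpa using hz0⟩
  have hmax := hfin.toFinset.max'_mem hne
  have hmaxC : hfin.toFinset.max' hne ∈ C := by simpa using hmax
  obtain ⟨z, hz, hlt⟩ := main _ hmaxC.1
  have := hfin.toFinset.le_max' z (by simpa using hz)
  linarith

end Setup

end LE.LS
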