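import Mathlib
import Pool.Agent.H10.LE.LS

/-!
Abstract linear theory for MP_7eb226_an: operators `B = P T P` near a model operator `A`
which has the simple eigenvalue `1` (eigenvector `e2`) and one eigenvalue `μ > 1`
(eigenvector `e1`) on the even part.  `m B` is the Schur complement of `1 - B` on `e2`.
-/

set_option autoImplicit false

open Filter Topology Metric
open scoped NNReal

namespace LE.Schur

open LE.LS

variable {H : Type*} [NormedAddCommGroup H] [InnerProductSpace ℝ H] [CompleteSpace H]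

open scoped RealInnerProductSpace

/-- Model data on the even part. -/
structure Lin (H : Type*) [NormedAddCommGroup H] [InnerProductSpace ℝ H] [CompleteSpace H] where
  /-- the reflection -/
  σ : H →L[ℝ] H
  /-- the model operator -/
  A : H →L[ℝ] H
  /-- first eigenvector -/
  e1 : H
  /-- resonant eigenvector -/
  e2 : H
  /-- first eigenvalue -/
  μ : ℝ
  σσ : ∀ x, σ (σ x) = x
  σs : ∀ x y, inner ℝ (σ x) y = inner ℝ x (σ y)
  As : ∀ x y, inner ℝ (A x) y = inner ℝ x (A y)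
  ne1 : ‖e1‖ = 1
  ne2 : ‖e2‖ = 1
  e12 : inner ℝ e1 e2 = 0
  σe1 : σ e1 = e1
  σe2 : σ e2 = e2
  Ae1 : A e1 = μ • e1
  Ae2 : A e2 = e2
  hμ : 2 ≤ μ
  hA : ∀ y, σ y = y → inner ℝ e1 y = 0 → inner ℝ e2 y = 0 → inner ℝ (A y) y ≤ 5 / 8 * ‖y‖ ^ 2

namespace Lin

variable (L : Lin H)

/-- projection onto the orthogonal complement of `e2` -/
noncomputable def pi : H →L[ℝ] H :=
  ContinuousLinearMap.id ℝ H - (innerSL ℝ L.e2).smulRight L.e2

theorem pi_apply (x : H) : L.pi x = x - ⟪L.e2, x⟫ • L.e2 := by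
  simp [pi]

theorem inner_e2_e2 : ⟪L.e2, L.e2⟫ = 1 := by
  rw [real_inner_self_eq_norm_sq, L.ne2]; norm_num

theorem inner_e1_e1 : ⟪L.e1, L.e1⟫ = 1 := by
  rw [real_inner_self_eq_norm_sq, L.ne1]; norm_num

theorem inner_e2_e1 : ⟪L.e2, L.e1⟫ = 0 := by rw [real_inner_comm]; exact L.e12

theorem inner_e2_pi (x : H) : ⟪L.e2, L.pi x⟫ = 0 := by
  rw [L.pi_apply, inner_sub_right, inner_smul_right, L.inner_e2_e2]; ring

theorem pi_eq_self {x : H} (hx : ⟪L.e2, x⟫ = 0) : L.pi x = x := by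
  rw [L.pi_apply, hx]; simp

theorem pi_e2 : L.pi L.e2 = 0 := by
  rw [L.pi_apply, L.inner_e2_e2]; simp

theorem isProj_pi : IsProj L.pi where
  idem x := L.pi_eq_self (L.inner_e2_pi x)
  symm x y := by
    rw [L.pi_apply, L.pi_apply, inner_sub_left, inner_sub_right, inner_smul_left,
      inner_smul_right, real_inner_comm x L.e2]
    simp
    ring

theorem norm_pi_le (x : H) : ‖L.pi x‖ ≤ ‖x‖ := L.isProj_pi.norm_le x

theorem decomp (x : H) : x = ⟪L.e2, x⟫ • L.e2 + L.pi x := by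
  rw [L.pi_apply]; abel

/-- admissible operators: symmetric, commuting with `σ`, close to `A` on even vectors
(within 1/16) -/
structure Adm (B : H →L[ℝ] H) : Prop where
  symm : ∀ x y, inner ℝ (B x) y = inner ℝ x (B y)
  comm : ∀ x, B (L.σ x) = L.σ (B x)
  close : ∀ x, L.σ x = x → ‖B x - L.A x‖ ≤ 1 / 16 * ‖x‖

variable {L} {B : H →L[ℝ] H}

omit [CompleteSpace H] in
theorem norm_sq_add {x y : H} (h : ⟪x, y⟫ = 0) : ‖x + y‖ ^ 2 = ‖x‖ ^ 2 + ‖y‖ ^ 2 := by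
  rw [norm_add_sq_real, h]; ring

/-- model lower bound -/
theorem model_low {x : H} (hσ : L.σ x = x) (hx : ⟪L.e2, x⟫ = 0) :
    3 / 8 * ‖x‖ ≤ ‖x - L.A x‖ ∧ ⟪L.e2, x - L.A x⟫ = 0 := by
  set α := ⟪L.e1, x⟫ with hα
  set y := x - α • L.e1 with hy
  have hxy : x = α • L.e1 + y := by rw [hy]; abel
  have hy1 : ⟪L.e1, y⟫ = 0 := by
    rw [hy, inner_sub_right, inner_smul_right, L.inner_e1_e1, ← hα]; ring
  have hy2 : ⟪L.e2, y⟫ = 0 := by
    rw [hy, inner_sub_right, inner_smul_right, L.inner_e2_e1, hx]; ring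
  have hσy : L.σ y = y := by rw [hy, map_sub, map_smul, hσ, L.σe1]
  have hAy := L.hA y hσy hy1 hy2
  have hyA1 : ⟪L.e1, y - L.A y⟫ = 0 := by
    rw [inner_sub_right, hy1, ← L.As, L.Ae1, inner_smul_left, hy1]; simp
  have hyA2 : ⟪L.e2, y - L.A y⟫ = 0 := by
    rw [inner_sub_right, hy2, ← L.As, L.Ae2, hy2]; simp
  have hxA : x - L.A x = (α * (1 - L.μ)) • L.e1 + (y - L.A y) := by
    conv_lhs => rw [hxy]
    rw [map_add, map_smul, L.Ae1, smul_smul, mul_sub, mul_one, sub_smul]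
    abel
  have hn1 : ‖x‖ ^ 2 = α ^ 2 + ‖y‖ ^ 2 := by
    conv_lhs => rw [hxy]
    rw [norm_sq_add (by rw [inner_smul_left, hy1]; simp), norm_smul, L.ne1, Real.norm_eq_abs,
      mul_one, sq_abs]
  have hn2 : ‖x - L.A x‖ ^ 2 = (α * (1 - L.μ)) ^ 2 + ‖y - L.A y‖ ^ 2 := by
    rw [hxA, norm_sq_add (by rw [inner_smul_left, hyA1]; simp), norm_smul, L.ne1,
      Real.norm_eq_abs, mul_one, sq_abs]
  have hy3 : 3 / 8 * ‖y‖ ≤ ‖y - L.A y‖ := by
    have h1 : ⟪y - L.A y, y⟫ ≤ ‖y - L.A y‖ * ‖y‖ := real_inner_le_norm _ _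
    have h2 : 3 / 8 * ‖y‖ ^ 2 ≤ ⟪y - L.A y, y⟫ := by
      rw [inner_sub_left, real_inner_self_eq_norm_sq]; linarith
    rcases eq_or_lt_of_le (norm_nonneg y) with h | h
    · rw [← h]; simp
    · nlinarith
  constructor
  · apply le_of_sq_le_sq _ (norm_nonneg _)
    rw [hn2, mul_pow, hn1]
    have h4 : (3 / 8 * ‖y‖) ^ 2 ≤ ‖y - L.A y‖ ^ 2 := by
      gcongr
    have h5 : (3 / 8 : ℝ) ^ 2 * α ^ 2 ≤ (α * (1 - L.μ)) ^ 2 := by
      have : 1 ≤ (1 - L.μ) ^ 2 := by nlinarith [L.hμ]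
      rw [mul_pow]
      nlinarith [sq_nonneg α]
    nlinarith
  · rw [hxA, inner_add_right, inner_smul_right, L.inner_e2_e1, hyA2]; ring

theorem Adm.low (hB : L.Adm B) {x : H} (hσ : L.σ x = x) (hx : ⟪L.e2, x⟫ = 0) :
    5 / 16 * ‖x‖ ≤ ‖L.pi (x - B x)‖ := by
  obtain ⟨h1, h2⟩ := model_low hσ hx
  have h3 : L.pi (x - B x) = (x - L.A x) - L.pi (B x - L.A x) := by
    rw [← L.pi_eq_self h2, ← map_sub]
    congr 1; abel
  have h4 := hB.close x hσ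
  have h5 : ‖x - L.A x‖ ≤ ‖L.pi (x - B x)‖ + ‖L.pi (B x - L.A x)‖ := by
    have : x - L.A x = L.pi (x - B x) + L.pi (B x - L.A x) := by rw [h3]; abel
    conv_lhs => rw [this]
    exact norm_add_le _ _
  have h6 := L.norm_pi_le (B x - L.A x)
  linarith

/-- even part -/
noncomputable def ev (L : Lin H) : H →L[ℝ] H := (1 / 2 : ℝ) • (ContinuousLinearMap.id ℝ H + L.σ)

theorem ev_apply (x : H) : L.ev x = (1 / 2 : ℝ) • (x + L.σ x) := by simp [ev]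

theorem σ_ev (x : H) : L.σ (L.ev x) = L.ev x := by
  rw [ev_apply, map_smul, map_add, L.σσ, add_comm (L.σ x)]

theorem ev_even {x : H} (hx : L.σ x = x) : L.ev x = x := by
  rw [ev_apply, hx, ← two_smul ℝ x, smul_smul]; norm_num

theorem ev_symm (x y : H) : ⟪L.ev x, y⟫ = ⟪x, L.ev y⟫ := by
  rw [ev_apply, ev_apply, inner_smul_left, inner_smul_right, inner_add_left, inner_add_right, L.σs]
  simp

theorem σ_sub_ev (x : H) : L.σ (x - L.ev x) = -(x - L.ev x) := by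
  have h : L.ev x + L.ev x = x + L.σ x := by
    rw [ev_apply, ← two_smul ℝ ((1 / 2 : ℝ) • (x + L.σ x)), smul_smul]; norm_num
  have h2 : L.σ x = L.ev x + L.ev x - x := by rw [h]; abel
  rw [map_sub, σ_ev, h2]; abel

/-- even and odd vectors are orthogonal -/
theorem inner_even_odd {x o : H} (hx : L.σ x = x) (ho : L.σ o = -o) : ⟪x, o⟫ = 0 := by
  have h1 : ⟪L.σ x, o⟫ = ⟪x, L.σ o⟫ := L.σs x o
  rw [hx, ho, inner_neg_right] at h1
  linarith

theorem inner_e2_ev (x : H) : ⟪L.e2, L.ev x⟫ = ⟪L.e2, x⟫ := by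
  rw [← ev_symm, ev_even L.σe2]

theorem pi_σ (x : H) : L.pi (L.σ x) = L.σ (L.pi x) := by
  rw [L.pi_apply, L.pi_apply, map_sub, map_smul, L.σe2, ← L.σs, L.σe2]

theorem pi_odd {o : H} (ho : L.σ o = -o) : L.pi o = o :=
  L.pi_eq_self (inner_even_odd L.σe2 ho)

theorem Adm.low' (hB : L.Adm B) {x : H} (hx : ⟪L.e2, x⟫ = 0) :
    5 / 16 * ‖x‖ ≤ ‖L.pi (x - B (L.ev x))‖ := by
  set y := L.ev x with hy
  set o := x - L.ev x with ho
  have hyσ : L.σ y = y := σ_ev x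
  have hoσ : L.σ o = -o := σ_sub_ev x
  have hxyo : x = y + o := by rw [hy, ho]; abel
  have hye : ⟪L.e2, y⟫ = 0 := by rw [hy, inner_e2_ev, hx]
  have h1 := hB.low hyσ hye
  have h2 : L.pi (x - B y) = L.pi (y - B y) + o := by
    conv_lhs => rw [hxyo]
    rw [show y + o - B y = (y - B y) + o by abel, map_add, pi_odd hoσ]
  have h3 : L.σ (L.pi (y - B y)) = L.pi (y - B y) := by
    rw [← pi_σ, map_sub, ← hB.comm, hyσ]
  have h4 : ‖L.pi (x - B y)‖ ^ 2 = ‖L.pi (y - B y)‖ ^ 2 + ‖o‖ ^ 2 := by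
    rw [h2]; exact norm_sq_add (inner_even_odd h3 hoσ)
  have h5 : ‖x‖ ^ 2 = ‖y‖ ^ 2 + ‖o‖ ^ 2 := by
    conv_lhs => rw [hxyo]
    exact norm_sq_add (inner_even_odd hyσ hoσ)
  apply le_of_sq_le_sq _ (norm_nonneg _)
  rw [h4, mul_pow, h5]
  have h6 : (5 / 16 * ‖y‖) ^ 2 ≤ ‖L.pi (y - B y)‖ ^ 2 := by gcongr
  nlinarith [sq_nonneg ‖o‖]

/-- the full operator to be inverted -/
noncomputable def Lhat (L : Lin H) (B : H →L[ℝ] H) : H →L[ℝ] H :=
  (innerSL ℝ L.e2).smulRight L.e2 + L.pi ∘L (ContinuousLinearMap.id ℝ H - B ∘L L.ev) ∘L L.pi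

theorem Lhat_apply (x : H) :
    L.Lhat B x = ⟪L.e2, x⟫ • L.e2 + L.pi (L.pi x - B (L.ev (L.pi x))) := by
  simp [Lhat]

theorem norm_sq_e2 {a : ℝ} {y : H} (hy : ⟪L.e2, y⟫ = 0) :
    ‖a • L.e2 + y‖ ^ 2 = a ^ 2 + ‖y‖ ^ 2 := by
  rw [norm_sq_add (by rw [inner_smul_left, hy]; simp), norm_smul, L.ne2, Real.norm_eq_abs,
    mul_one, sq_abs]

theorem Adm.Lhat_lower (hB : L.Adm B) (x : H) : 5 / 16 * ‖x‖ ≤ ‖L.Lhat B x‖ := by
  have h1 : ‖L.Lhat B x‖ ^ 2 =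
      ⟪L.e2, x⟫ ^ 2 + ‖L.pi (L.pi x - B (L.ev (L.pi x)))‖ ^ 2 := by
    rw [Lhat_apply]; exact norm_sq_e2 (L.inner_e2_pi _)
  have h2 : ‖x‖ ^ 2 = ⟪L.e2, x⟫ ^ 2 + ‖L.pi x‖ ^ 2 := by
    conv_lhs => rw [L.decomp x]
    exact norm_sq_e2 (L.inner_e2_pi _)
  have h3 := hB.low' (L.inner_e2_pi x)
  apply le_of_sq_le_sq _ (norm_nonneg _)
  rw [mul_pow, h1, h2]
  have h4 : (5 / 16 * ‖L.pi x‖) ^ 2 ≤ ‖L.pi (L.pi x - B (L.ev (L.pi x)))‖ ^ 2 := by gcongr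
  nlinarith [sq_nonneg ⟪L.e2, x⟫]

theorem Adm.comm_ev (hB : L.Adm B) (x : H) : B (L.ev x) = L.ev (B x) := by
  rw [ev_apply, ev_apply, map_smul, map_add, hB.comm]

theorem Adm.Lhat_symm (hB : L.Adm B) (x y : H) : ⟪L.Lhat B x, y⟫ = ⟪x, L.Lhat B y⟫ := by
  rw [Lhat_apply, Lhat_apply, inner_add_left, inner_add_right, inner_smul_left, inner_smul_right]
  have h1 : ⟪L.pi (L.pi x - B (L.ev (L.pi x))), y⟫ =
      ⟪x, L.pi (L.pi y - B (L.ev (L.pi y)))⟫ := by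
    rw [L.isProj_pi.symm _ y, ← L.isProj_pi.symm x, inner_sub_left, inner_sub_right,
      hB.symm, ev_symm, hB.comm_ev]
  rw [h1, real_inner_comm x L.e2]
  simp
  ring

theorem Adm.exists_phi (hB : L.Adm B) :
    ∃ φ, L.σ φ = φ ∧ ⟪L.e2, φ⟫ = 1 ∧ L.pi (φ - B φ) = 0 := by
  obtain ⟨w, hw⟩ := surj_of_lower (L.Lhat B) hB.Lhat_symm (by norm_num : (0 : ℝ) < 5 / 16)
    hB.Lhat_lower (L.pi (B L.e2))
  have hwe : ⟪L.e2, w⟫ = 0 := by
    have h := congrArg (fun z => ⟪L.e2, z⟫) hw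
    simp only [Lhat_apply] at h
    rw [inner_add_right, inner_smul_right, L.inner_e2_e2, L.inner_e2_pi, L.inner_e2_pi] at h
    linarith
  have hpw : L.pi w = w := L.pi_eq_self hwe
  have hw2 : L.pi (w - B (L.ev w)) = L.pi (B L.e2) := by
    rw [Lhat_apply, hwe, hpw] at hw
    simpa using hw
  have hσw : L.σ w = w := by
    have h1 : L.Lhat B (L.σ w - w) = 0 := by
      have h2 : L.Lhat B (L.σ w) = L.σ (L.Lhat B w) := by
        rw [Lhat_apply, Lhat_apply, map_add, map_smul, L.σe2, ← L.σs, L.σe2, pi_σ]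
        congr 1
        have h3 : L.ev (L.σ (L.pi w)) = L.σ (L.ev (L.pi w)) := by
          rw [ev_apply, ev_apply, map_smul, map_add]
        rw [h3, hB.comm, ← map_sub, pi_σ]
      rw [map_sub, h2, hw, ← pi_σ, ← hB.comm, L.σe2, sub_self]
    have h4 := hB.Lhat_lower (L.σ w - w)
    rw [h1, norm_zero] at h4
    have : ‖L.σ w - w‖ ≤ 0 := by linarith
    exact sub_eq_zero.1 (norm_le_zero_iff.1 this)
  refine ⟨L.e2 + w, ?_, ?_, ?_⟩
  · rw [map_add, hσw, L.σe2]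
  · rw [inner_add_right, L.inner_e2_e2, hwe, add_zero]
  · rw [ev_even hσw] at hw2
    have : L.e2 + w - B (L.e2 + w) = L.e2 + ((w - B w) - B L.e2) := by
      rw [map_add]; abel
    rw [this, map_add, L.pi_e2, map_sub, hw2, sub_self, zero_add]

open Classical in
/-- the almost-resonant vector -/
noncomputable def phi (L : Lin H) (B : H →L[ℝ] H) : H :=
  if h : ∃ φ, L.σ φ = φ ∧ ⟪L.e2, φ⟫ = 1 ∧ L.pi (φ - B φ) = 0 then Classical.choose h else 0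

theorem Adm.phi_spec (hB : L.Adm B) :
    L.σ (L.phi B) = L.phi B ∧ ⟪L.e2, L.phi B⟫ = 1 ∧ L.pi (L.phi B - B (L.phi B)) = 0 := by
  have h := hB.exists_phi
  unfold phi
  rw [dif_pos h]
  exact Classical.choose_spec h

/-- the Schur complement -/
noncomputable def m (L : Lin H) (B : H →L[ℝ] H) : ℝ := ⟪L.e2, L.phi B - B (L.phi B)⟫

theorem Adm.phi_eq (hB : L.Adm B) : L.phi B - B (L.phi B) = L.m B • L.e2 := by
  have h := L.decomp (L.phi B - B (L.phi B))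
  rw [hB.phi_spec.2.2, add_zero] at h
  exact h

theorem Adm.dist_phi (hB : L.Adm B) {φ : H} (hσ : L.σ φ = φ) (hφ : ⟪L.e2, φ⟫ = 1) :
    5 / 16 * ‖φ - L.phi B‖ ≤ ‖L.pi (φ - B φ)‖ := by
  have h1 : L.σ (φ - L.phi B) = φ - L.phi B := by rw [map_sub, hσ, hB.phi_spec.1]
  have h2 : ⟪L.e2, φ - L.phi B⟫ = 0 := by
    rw [inner_sub_right, hφ, hB.phi_spec.2.1]; ring
  have h3 := hB.low h1 h2
  have h4 : L.pi ((φ - L.phi B) - B (φ - L.phi B)) = L.pi (φ - B φ) := by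
    have : (φ - L.phi B) - B (φ - L.phi B) = (φ - B φ) - (L.phi B - B (L.phi B)) := by
      rw [map_sub]; abel
    rw [this, map_sub, hB.phi_spec.2.2, sub_zero]
  rwa [h4] at h3

theorem Adm.phi_close (hB : L.Adm B) : ‖L.phi B - L.e2‖ ≤ 16 / 5 * ‖B L.e2 - L.A L.e2‖ := by
  have h := hB.dist_phi L.σe2 L.inner_e2_e2
  have h2 : L.e2 - B L.e2 = -(B L.e2 - L.A L.e2) := by rw [L.Ae2]; abel
  rw [h2, map_neg, norm_neg] at h
  have h3 := L.norm_pi_le (B L.e2 - L.A L.e2)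
  rw [norm_sub_rev]
  linarith

theorem Adm.m_eq_zero (hB : L.Adm B) (h : L.m B = 0) : B (L.phi B) = L.phi B := by
  have h1 := hB.phi_eq
  rw [h, zero_smul] at h1
  exact (sub_eq_zero.1 h1).symm

theorem Adm.eq_phi_of_fixed (hB : L.Adm B) {φ : H} (hσ : L.σ φ = φ) (hφ : ⟪L.e2, φ⟫ = 1)
    (h : B φ = φ) : φ = L.phi B ∧ L.m B = 0 := by
  have h1 := hB.dist_phi hσ hφ
  rw [h, sub_self, map_zero, norm_zero] at h1
  have h2 : ‖φ - L.phi B‖ ≤ 0 := by linarith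
  have h3 : φ = L.phi B := sub_eq_zero.1 (norm_le_zero_iff.1 h2)
  refine ⟨h3, ?_⟩
  unfold m
  rw [← h3, h, sub_self, inner_zero_right]

theorem Adm.tendsto_phi (hB : L.Adm B) {ι : Type*} {l : Filter ι} {C : ι → H →L[ℝ] H}
    (hC : ∀ i, L.Adm (C i)) (hconv : ∀ x, Tendsto (fun i => C i x) l (𝓝 (B x))) :
    Tendsto (fun i => L.phi (C i)) l (𝓝 (L.phi B)) := by
  have h1 : Tendsto (fun i => ‖L.pi (L.phi B - C i (L.phi B))‖) l (𝓝 0) := by
    have h2 : Tendsto (fun i => L.pi (L.phi B - C i (L.phi B))) l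
        (𝓝 (L.pi (L.phi B - B (L.phi B)))) :=
      (L.pi.continuous.tendsto _).comp ((hconv (L.phi B)).const_sub _)
    rw [hB.phi_spec.2.2] at h2
    exact tendsto_zero_iff_norm_tendsto_zero.1 h2
  rw [tendsto_iff_norm_sub_tendsto_zero]
  refine squeeze_zero (g := fun i => 16 / 5 * ‖L.pi (L.phi B - C i (L.phi B))‖)
    (fun i => norm_nonneg _) (fun i => ?_) ?_
  · have := (hC i).dist_phi hB.phi_spec.1 hB.phi_spec.2.1
    rw [norm_sub_rev]
    linarith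
  · simpa using h1.const_mul (16 / 5)

theorem Adm.norm_le (hB : L.Adm B) {x : H} (hx : L.σ x = x) :
    ‖B x‖ ≤ (‖L.A‖ + 1 / 16) * ‖x‖ := by
  have h1 := hB.close x hx
  have h2 := L.A.le_opNorm x
  have h3 : ‖B x‖ ≤ ‖B x - L.A x‖ + ‖L.A x‖ := by
    have := norm_add_le (B x - L.A x) (L.A x)
    rwa [sub_add_cancel] at this
  linarith

theorem Adm.tendsto_m (hB : L.Adm B) {ι : Type*} {l : Filter ι} {C : ι → H →L[ℝ] H}
    (hC : ∀ i, L.Adm (C i)) (hconv : ∀ x, Tendsto (fun i => C i x) l (𝓝 (B x))) :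
    Tendsto (fun i => L.m (C i)) l (𝓝 (L.m B)) := by
  have h1 := hB.tendsto_phi hC hconv
  have h2 : Tendsto (fun i => C i (L.phi (C i))) l (𝓝 (B (L.phi B))) := by
    have h3 : Tendsto (fun i => C i (L.phi (C i) - L.phi B) + C i (L.phi B)) l
        (𝓝 (0 + B (L.phi B))) := by
      refine Tendsto.add ?_ (hconv _)
      rw [tendsto_zero_iff_norm_tendsto_zero]
      refine squeeze_zero (g := fun i => (‖L.A‖ + 1 / 16) * ‖L.phi (C i) - L.phi B‖)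
        (fun i => norm_nonneg _) (fun i => ?_) ?_
      · apply (hC i).norm_le
        rw [map_sub, (hC i).phi_spec.1, hB.phi_spec.1]
      · have := (tendsto_iff_norm_sub_tendsto_zero.1 h1).const_mul (‖L.A‖ + 1 / 16)
        simpa using this
    rw [zero_add] at h3
    refine h3.congr fun i => ?_
    rw [← map_add]; simp
  unfold m
  exact tendsto_const_nhds.inner (h1.sub h2)

/-- a nontrivial solution of one linear equation in two unknowns -/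
theorem exists_pair (p q : ℝ) : ∃ α β : ℝ, (α ≠ 0 ∨ β ≠ 0) ∧ α * p + β * q = 0 := by
  by_cases hp : p = 0
  · exact ⟨1, 0, Or.inl one_ne_zero, by rw [hp]; ring⟩
  · exact ⟨q, -p, Or.inr (neg_ne_zero.2 hp), by ring⟩

/-- the form is positive on the `B`-orthogonal complement of `e1` inside `e2^⊥` -/
theorem Adm.form_pos (hB : L.Adm B) {w : H} (hσ : L.σ w = w) (hw : ⟪L.e2, w⟫ = 0)
    (hw1 : ⟪w - B w, L.e1⟫ = 0) : 1 / 8 * ‖w‖ ^ 2 ≤ ⟪w - B w, w⟫ := by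
  set γ := ⟪L.e1, w⟫ with hγ
  set y := w - γ • L.e1 with hy
  have hwy : w = γ • L.e1 + y := by rw [hy]; abel
  have hy1 : ⟪L.e1, y⟫ = 0 := by
    rw [hy, inner_sub_right, inner_smul_right, L.inner_e1_e1, ← hγ]; ring
  have hy2 : ⟪L.e2, y⟫ = 0 := by
    rw [hy, inner_sub_right, inner_smul_right, L.inner_e2_e1, hw]; ring
  have hσy : L.σ y = y := by rw [hy, map_sub, map_smul, hσ, L.σe1]
  have hAy := L.hA y hσy hy1 hy2
  -- estimates
  have hcy := hB.close y hσy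
  have hc1 := hB.close L.e1 L.σe1
  rw [L.ne1, mul_one] at hc1
  have hyy : 5 / 16 * ‖y‖ ^ 2 ≤ ⟪y - B y, y⟫ := by
    have h1 : ⟪B y - L.A y, y⟫ ≤ ‖B y - L.A y‖ * ‖y‖ := real_inner_le_norm _ _
    have h2 : ⟪B y - L.A y, y⟫ = ⟪B y, y⟫ - ⟪L.A y, y⟫ := inner_sub_left _ _ _
    have h3 : ⟪y - B y, y⟫ = ‖y‖ ^ 2 - ⟪B y, y⟫ := by
      rw [inner_sub_left, real_inner_self_eq_norm_sq]
    have h4 : ‖B y - L.A y‖ * ‖y‖ ≤ 1 / 16 * ‖y‖ * ‖y‖ := by gcongr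
    nlinarith
  have he1 : ⟪L.e1 - B L.e1, L.e1⟫ ≤ -(15 / 16) := by
    have h1 : |⟪B L.e1 - L.A L.e1, L.e1⟫| ≤ ‖B L.e1 - L.A L.e1‖ * ‖L.e1‖ :=
      abs_real_inner_le_norm _ _
    rw [L.ne1, mul_one] at h1
    have h1' := (abs_le.1 (h1.trans hc1)).1
    have h2 : ⟪B L.e1 - L.A L.e1, L.e1⟫ = ⟪B L.e1, L.e1⟫ - L.μ := by
      rw [inner_sub_left, L.Ae1, inner_smul_left, L.inner_e1_e1]; simp
    have h3 : ⟪L.e1 - B L.e1, L.e1⟫ = 1 - ⟪B L.e1, L.e1⟫ := by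
      rw [inner_sub_left, L.inner_e1_e1]
    have := L.hμ
    linarith
  have hey : |⟪L.e1 - B L.e1, y⟫| ≤ 1 / 16 * ‖y‖ := by
    have h1 : ⟪L.e1 - B L.e1, y⟫ = -⟪B L.e1 - L.A L.e1, y⟫ := by
      rw [inner_sub_left, inner_sub_left, L.Ae1, inner_smul_left, hy1]; simp
    rw [h1, abs_neg]
    refine (abs_real_inner_le_norm _ _).trans ?_
    gcongr
  -- symmetry
  have hsym : ∀ a b : H, ⟪a - B a, b⟫ = ⟪a, b - B b⟫ := by
    intro a b
    rw [inner_sub_left, inner_sub_right, hB.symm]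
  have hγ1 : γ * ⟪L.e1 - B L.e1, L.e1⟫ + ⟪L.e1 - B L.e1, y⟫ = 0 := by
    have h1 : ⟪w - B w, L.e1⟫ = ⟪L.e1 - B L.e1, w⟫ := by rw [hsym, real_inner_comm]
    rw [h1, hwy, inner_add_right, inner_smul_right] at hw1
    exact hw1
  have hγ2 : |γ| ≤ 1 / 15 * ‖y‖ := by
    have h1 : |γ| * |⟪L.e1 - B L.e1, L.e1⟫| = |⟪L.e1 - B L.e1, y⟫| := by
      rw [← abs_mul, ← abs_neg ⟪L.e1 - B L.e1, y⟫]
      congr 1; linarith
    have h2 : 15 / 16 ≤ |⟪L.e1 - B L.e1, L.e1⟫| := by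
      rw [abs_of_nonpos (by linarith)]; linarith
    have h3 : |γ| * (15 / 16) ≤ 1 / 16 * ‖y‖ := by
      calc |γ| * (15 / 16) ≤ |γ| * |⟪L.e1 - B L.e1, L.e1⟫| := by gcongr
        _ ≤ 1 / 16 * ‖y‖ := by rw [h1]; exact hey
    linarith
  have hform : ⟪w - B w, w⟫ = γ * ⟪L.e1 - B L.e1, y⟫ + ⟪y - B y, y⟫ := by
    have h0 : ⟪w - B w, w⟫ = ⟪w - B w, γ • L.e1 + y⟫ := by rw [← hwy]
    have h1 : ⟪w - B w, w⟫ = ⟪w - B w, y⟫ := by
      rw [h0, inner_add_right, inner_smul_right, hw1]; ring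
    rw [h1]
    have h2 : w - B w = γ • (L.e1 - B L.e1) + (y - B y) := by
      conv_lhs => rw [hwy]
      rw [map_add, map_smul, smul_sub]; abel
    rw [h2, inner_add_left, inner_smul_left]; simp
  have hnw : ‖w‖ ^ 2 = γ ^ 2 + ‖y‖ ^ 2 := by
    conv_lhs => rw [hwy]
    rw [norm_sq_add (by rw [inner_smul_left, hy1]; simp), norm_smul, L.ne1, Real.norm_eq_abs,
      mul_one, sq_abs]
  have h5 : |γ * ⟪L.e1 - B L.e1, y⟫| ≤ (1 / 15 * ‖y‖) * (1 / 16 * ‖y‖) := by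
    rw [abs_mul]; gcongr
  have h6 := (abs_le.1 h5).1
  have h7 : γ ^ 2 ≤ (1 / 15 * ‖y‖) ^ 2 := by
    rw [← sq_abs γ]; gcongr
  rw [hform, hnw]
  nlinarith [sq_nonneg ‖y‖]

theorem Adm.form_e1 (hB : L.Adm B) : ⟪L.e1 - B L.e1, L.e1⟫ ≤ -(15 / 16) := by
  have hc1 := hB.close L.e1 L.σe1
  rw [L.ne1, mul_one] at hc1
  have h1 : |⟪B L.e1 - L.A L.e1, L.e1⟫| ≤ ‖B L.e1 - L.A L.e1‖ * ‖L.e1‖ :=
    abs_real_inner_le_norm _ _
  rw [L.ne1, mul_one] at h1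
  have h1' := (abs_le.1 (h1.trans hc1)).1
  have h2 : ⟪B L.e1 - L.A L.e1, L.e1⟫ = ⟪B L.e1, L.e1⟫ - L.μ := by
    rw [inner_sub_left, L.Ae1, inner_smul_left, L.inner_e1_e1]; simp
  have h3 : ⟪L.e1 - B L.e1, L.e1⟫ = 1 - ⟪B L.e1, L.e1⟫ := by
    rw [inner_sub_left, L.inner_e1_e1]
  have := L.hμ
  linarith

/-- **Monotonicity, strict form.** -/
theorem mono_strict {T P P' : H →L[ℝ] H} (hP : IsProj P) (hP' : IsProj P')
    (hPσ : ∀ x, P (L.σ x) = L.σ (P x)) (hPP : ∀ x, P' (P x) = P x)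
    (hB : L.Adm (P ∘L T ∘L P)) (hB' : L.Adm (P' ∘L T ∘L P'))
    (hm : L.m (P ∘L T ∘L P) ≤ 0) (hm' : 0 ≤ L.m (P' ∘L T ∘L P')) :
    L.m (P ∘L T ∘L P) = 0 ∧ L.m (P' ∘L T ∘L P') = 0 ∧
      L.phi (P ∘L T ∘L P) = L.phi (P' ∘L T ∘L P') ∧
      P (L.phi (P ∘L T ∘L P)) = L.phi (P ∘L T ∘L P) := by
  set B := P ∘L T ∘L P with hBdef
  set B' := P' ∘L T ∘L P' with hBdef'
  set φ := L.phi B with hφ
  set φ' := L.phi B' with hφ'
  obtain ⟨hφσ, hφ1, -⟩ := hB.phi_spec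
  obtain ⟨hφσ', hφ1', -⟩ := hB'.phi_spec
  rw [← hφ] at hφσ hφ1
  rw [← hφ'] at hφσ' hφ1'
  have hBapp : ∀ x, B x = P (T (P x)) := fun x => rfl
  have hBapp' : ∀ x, B' x = P' (T (P' x)) := fun x => rfl
  have hsym : ∀ a b : H, ⟪a - B a, b⟫ = ⟪a, b - B b⟫ := by
    intro a b
    rw [inner_sub_left, inner_sub_right, hB.symm]
  have hsym' : ∀ a b : H, ⟪a - B' a, b⟫ = ⟪a, b - B' b⟫ := by
    intro a b
    rw [inner_sub_left, inner_sub_right, hB'.symm]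
  obtain ⟨α, β, hne, hlin⟩ := exists_pair ⟪P L.e1 - B' (P L.e1), L.e1⟫ ⟪P φ - B' (P φ), L.e1⟫
  set v := α • L.e1 + β • φ with hv
  set z := P v with hz
  have hvσ : L.σ v = v := by
    rw [hv, map_add, map_smul, map_smul, L.σe1, hφσ]
  have hzσ : L.σ z = z := by rw [hz, ← hPσ, hvσ]
  -- z is B'-orthogonal to e1
  have hz1 : ⟪z - B' z, L.e1⟫ = 0 := by
    have : z - B' z = α • (P L.e1 - B' (P L.e1)) + β • (P φ - B' (P φ)) := by
      rw [hz, hv]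
      simp only [map_add, map_smul, smul_sub]
      abel
    rw [this, inner_add_left, inner_smul_left, inner_smul_left]
    simpa using hlin
  -- value of the form of B at v
  have hφφ : ⟪φ - B φ, φ⟫ = L.m B := by
    rw [hφ, hB.phi_eq, inner_smul_left, ← hφ, hφ1]; simp
  have hφe1 : ⟪φ - B φ, L.e1⟫ = 0 := by
    rw [hφ, hB.phi_eq, inner_smul_left, L.inner_e2_e1]; simp
  have hQv : ⟪v - B v, v⟫ = α ^ 2 * ⟪L.e1 - B L.e1, L.e1⟫ + β ^ 2 * L.m B := by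
    have h1 : v - B v = α • (L.e1 - B L.e1) + β • (φ - B φ) := by
      rw [hv]
      simp only [map_add, map_smul, smul_sub]
      abel
    have h2 : ⟪L.e1 - B L.e1, φ⟫ = 0 := by
      rw [hsym, real_inner_comm]; exact hφe1
    rw [h1, hv, inner_add_left, inner_smul_left, inner_smul_left, inner_add_right,
      inner_add_right, inner_smul_right, inner_smul_right, inner_smul_right, inner_smul_right,
      hφφ, hφe1, h2]
    simp
    ring
  have he1 := hB.form_e1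
  have hQv' : ⟪v - B v, v⟫ ≤ -(15 / 16) * α ^ 2 + β ^ 2 * L.m B := by
    rw [hQv]; nlinarith [sq_nonneg α]
  -- comparison
  have hPz : P z = z := by rw [hz, hP.idem]
  have hP'z : P' z = z := by rw [hz, hPP]
  have hnz : ‖z‖ ^ 2 ≤ ‖v‖ ^ 2 := by
    have := hP.norm_le v
    rw [← hz] at this
    gcongr
  have hQz : ⟪z - B' z, z⟫ = ‖z‖ ^ 2 - ⟪T z, z⟫ := by
    rw [inner_sub_left, real_inner_self_eq_norm_sq, hBapp', hP'z, hP'.symm, hP'z]
  have hQvT : ⟪v - B v, v⟫ = ‖v‖ ^ 2 - ⟪T z, z⟫ := by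
    rw [inner_sub_left, real_inner_self_eq_norm_sq, hBapp, ← hz, hP.symm, ← hz]
  -- positivity
  set a := ⟪L.e2, z⟫ with ha
  set w := z - a • φ' with hw
  have hzw : z = a • φ' + w := by rw [hw]; abel
  have hwe : ⟪L.e2, w⟫ = 0 := by
    rw [hw, inner_sub_right, inner_smul_right, hφ1', ← ha]; ring
  have hwσ : L.σ w = w := by rw [hw, map_sub, map_smul, hzσ, hφσ']
  have hφe1' : ⟪φ' - B' φ', L.e1⟫ = 0 := by
    rw [hφ', hB'.phi_eq, inner_smul_left, L.inner_e2_e1]; simp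
  have hw1 : ⟪w - B' w, L.e1⟫ = 0 := by
    have : w - B' w = (z - B' z) - a • (φ' - B' φ') := by
      rw [hw]
      simp only [map_sub, map_smul, smul_sub]
      abel
    rw [this, inner_sub_left, hz1, inner_smul_left, hφe1']; simp
  have hpos := hB'.form_pos hwσ hwe hw1
  have hφw : ⟪φ' - B' φ', w⟫ = 0 := by
    rw [hφ', hB'.phi_eq, inner_smul_left, hwe]; simp
  have hφφ' : ⟪φ' - B' φ', φ'⟫ = L.m B' := by
    rw [hφ', hB'.phi_eq, inner_smul_left, ← hφ', hφ1']; simp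
  have hQz2 : ⟪z - B' z, z⟫ = a ^ 2 * L.m B' + ⟪w - B' w, w⟫ := by
    have h1 : z - B' z = a • (φ' - B' φ') + (w - B' w) := by
      rw [hw]
      simp only [map_sub, map_smul, smul_sub]
      abel
    have h2 : ⟪w - B' w, φ'⟫ = 0 := by
      rw [hsym', real_inner_comm]; exact hφw
    rw [h1]
    conv_lhs => rw [hzw]
    rw [inner_add_left, inner_smul_left, inner_add_right,
      inner_add_right, inner_smul_right, inner_smul_right, hφφ', hφw, h2]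
    simp
    ring
  -- conclusion
  have hβm : β ^ 2 * L.m B ≤ 0 := mul_nonpos_of_nonneg_of_nonpos (sq_nonneg _) hm
  have ham : 0 ≤ a ^ 2 * L.m B' := mul_nonneg (sq_nonneg _) hm'
  have hw0 : 1 / 8 * ‖w‖ ^ 2 ≤ 0 := by nlinarith [sq_nonneg α]
  have hw00 : w = 0 := by
    have : ‖w‖ ^ 2 ≤ 0 := by linarith
    have h2 : ‖w‖ = 0 := by
      have := le_antisymm this (sq_nonneg _)
      exact pow_eq_zero_iff (two_ne_zero) |>.1 this
    exact norm_eq_zero.1 h2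
  have hα : α = 0 := by
    have : α ^ 2 ≤ 0 := by nlinarith [sq_nonneg ‖w‖]
    exact pow_eq_zero_iff (two_ne_zero) |>.1 (le_antisymm this (sq_nonneg _))
  have hβ : β ≠ 0 := by
    rcases hne with h | h
    · exact absurd hα h
    · exact h
  have hmB : L.m B = 0 := by
    have h1 : 0 ≤ β ^ 2 * L.m B := by nlinarith [sq_nonneg ‖w‖, sq_nonneg α]
    have h2 : β ^ 2 * L.m B = 0 := le_antisymm hβm h1
    rcases mul_eq_zero.1 h2 with h | h
    · exact absurd (pow_eq_zero_iff (two_ne_zero) |>.1 h) hβ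
    · exact h
  have hvβ : v = β • φ := by rw [hv, hα, zero_smul, zero_add]
  have hnorm : ‖v‖ ^ 2 = ‖z‖ ^ 2 := by
    apply le_antisymm _ hnz
    nlinarith [sq_nonneg ‖w‖, sq_nonneg α]
  have hvz : z = v := by
    have h1 : ‖v - z‖ ^ 2 = ‖v‖ ^ 2 - ‖z‖ ^ 2 := by
      rw [norm_sub_sq_real, real_inner_comm, hz, hP.inner_self, ← hz]; ring
    rw [hnorm, sub_self] at h1
    have h2 : ‖v - z‖ = 0 := pow_eq_zero_iff (two_ne_zero) |>.1 h1
    exact (sub_eq_zero.1 (norm_eq_zero.1 h2)).symm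
  have hβa : β • φ = a • φ' := by
    rw [← hvβ, ← hvz, hzw, hw00, add_zero]
  have hβa2 : β = a := by
    have := congrArg (fun x => ⟪L.e2, x⟫) hβa
    simp only [inner_smul_right, hφ1, hφ1', mul_one] at this
    exact this
  have hφφ'' : φ = φ' := by
    rw [← hβa2] at hβa
    exact smul_right_injective H hβ hβa
  refine ⟨hmB, ?_, hφφ'', ?_⟩
  · have h1 : a ^ 2 * L.m B' ≤ 0 := by nlinarith [sq_nonneg ‖w‖, sq_nonneg α]
    have h2 : a ^ 2 * L.m B' = 0 := le_antisymm h1 ham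
    rcases mul_eq_zero.1 h2 with h | h
    · rw [← hβa2] at h
      exact absurd (pow_eq_zero_iff (two_ne_zero) |>.1 h) hβ
    · exact h
  · have h1 : P v = v := by rw [← hvz]; exact hPz
    rw [hvβ, map_smul] at h1
    exact smul_right_injective H hβ h1

/-- monotonicity -/
theorem mono {T P P' : H →L[ℝ] H} (hP : IsProj P) (hP' : IsProj P')
    (hPσ : ∀ x, P (L.σ x) = L.σ (P x)) (hPP : ∀ x, P' (P x) = P x)
    (hB : L.Adm (P ∘L T ∘L P)) (hB' : L.Adm (P' ∘L T ∘L P'))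
    (hm : L.m (P ∘L T ∘L P) ≤ 0) : L.m (P' ∘L T ∘L P') ≤ 0 := by
  by_contra hcon
  push Not at hcon
  have := (mono_strict hP hP' hPσ hPP hB hB' hm hcon.le).2.1
  linarith

end Lin

end LE.Schur
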